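import Mathlib.CategoryTheory.Category.Init
import Mathlib.Tactic.Monotonicity.Lemmas
import Mathlib.Analysis.CStarAlgebra.Classes
import Mathlib.Analysis.Calculus.LogDerivUniformlyOn
import Mathlib.Analysis.Normed.Module.MultipliableUniformlyOn
import Mathlib.Analysis.SpecialFunctions.Elliptic.Weierstrass
import Mathlib.RingTheory.PiTensorProduct
import Mathlib.RingTheory.SimpleRing.Principal

-- ======== part 0: formerly Pool.Agent.MP_cbf1af_ag.ell.Sigma
section MrgPart0

/-! The Weierstrass sigma function of a period pair. -/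

namespace Pool.Agent.ELL

open Complex Filter Topology PeriodPair

/-- the defining properties of the sigma function -/
structure IsSig (L : PeriodPair) (σ : ℂ → ℂ) : Prop where
  hol : Differentiable ℂ σ
  odd : ∀ z, σ (-z) = -σ z
  one : deriv σ 0 = 1
  zero : ∀ z, σ z = 0 ↔ z ∈ L.lattice
  der : ∀ z ∉ L.lattice, HasDerivAt (logDeriv σ) (-℘[L] z) z

theorem fac_le {u : ℂ} (h : ‖u‖ ≤ 1 / 2) : ‖(1 - u) * exp (u + u ^ 2 / 2) - 1‖ ≤ 2 * ‖u‖ ^ 3 := by
  have h1 : 1 + -u ≠ 0 := fun h0 => by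
    rw [← (add_neg_eq_zero.1 h0)] at h; norm_num at h
  have h2 := norm_log_sub_logTaylor_le 2 (z := -u) (by rw [norm_neg]; linarith)
  have h3 : logTaylor 3 (-u) = -(u + u ^ 2 / 2) := by
    simp [logTaylor, Finset.sum_range_succ]; ring
  have h4 : (1 - ‖u‖)⁻¹ ≤ 2 := inv_le_of_inv_le₀ two_pos (by linarith)
  have h5 : ‖u‖ ^ 3 ≤ (1 / 2) ^ 3 := by gcongr
  have h6 : ‖log (1 + -u) + (u + u ^ 2 / 2)‖ ≤ ‖u‖ ^ 3 := by
    rw [h3, sub_neg_eq_add, norm_neg] at h2
    refine h2.trans ?_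
    have := mul_le_mul_of_nonneg_left h4 (pow_nonneg (norm_nonneg u) 3)
    norm_num
    nlinarith [pow_nonneg (norm_nonneg u) 3]
  rw [sub_eq_add_neg 1 u, ← exp_log h1, ← exp_add]
  exact (norm_exp_sub_one_le (by linarith)).trans (by linarith)

variable (L : PeriodPair)

theorem far (R : ℝ) : ∀ᶠ l : L.lattice in cofinite, R ≤ ‖(l : ℂ)‖ :=
  (isCompact_iff_finite.mp (isCompact_closedBall (0 : L.lattice) R)).subset fun l hl => by
    simpa using (not_le.1 (show ¬R ≤ ‖(l : ℂ)‖ from hl)).le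

theorem exists_sigma : ∃ σ, IsSig L σ := by
  let f : L.lattice → ℂ → ℂ := fun l z => (1 - z / l) * exp (z / l + (z / l) ^ 2 / 2) - 1
  let g : L.lattice → ℂ → ℂ := fun l z => 1 / (z - l) + 1 / l + z / l ^ 2
  have hs : Summable fun l : L.lattice => ‖l‖ ^ (-3 : ℝ) :=
    ZLattice.summable_norm_rpow _ _ (by simp; norm_num)
  have hf : ∀ l, Differentiable ℂ (f l) := fun l => by fun_prop
  have h1 : ∀ r > 0, ∀ᶠ l : L.lattice in cofinite, ∀ z ∈ Metric.ball (0 : ℂ) r,
      ‖f l z‖ ≤ 2 * r ^ 3 * ‖l‖ ^ (-3 : ℝ) := fun r hr => by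
    filter_upwards [far L (2 * r)] with l hl z hz
    have h0 : 0 < ‖(l : ℂ)‖ := by linarith
    have hz' : ‖z‖ ≤ r := (mem_ball_zero_iff.1 hz).le
    refine (fac_le (by rw [norm_div, div_le_iff₀ h0]; linarith)).trans ?_
    rw [norm_div, div_pow, Real.rpow_neg (norm_nonneg _), mul_assoc, div_eq_mul_inv]
    norm_cast
    gcongr
  have h2 := fun r hr => (hs.mul_left _).hasProdLocallyUniformlyOn_one_add Metric.isOpen_ball
    (h1 r hr) fun l => (hf l).continuous.continuousOn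
  have hb : ∀ z : ℂ, z ∈ Metric.ball (0 : ℂ) (‖z‖ + 1) := fun z => by simp
  have h3 : Differentiable ℂ fun z => ∏' l, (1 + f l z) := fun z =>
    (TendstoLocallyUniformlyOn.differentiableOn (h2 _ (by positivity))
      (.of_forall fun s => by fun_prop) Metric.isOpen_ball).differentiableAt
      (Metric.isOpen_ball.mem_nhds (hb z))
  have h4 : ∀ z ∉ L.lattice, ∀ l : L.lattice, 1 - z / l ≠ 0 := fun z hz l h => by
    have h5 : (l : ℂ) ≠ 0 := fun h0 => by simp [h0] at h
    exact hz ((div_eq_one_iff_eq h5).1 (sub_eq_zero.1 h).symm ▸ l.2)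
  have h5 : ∀ z ∉ L.lattice, ∀ l, 1 + f l z ≠ 0 := fun z hz l => by
    simpa [f] using h4 z hz l
  have h6 : ∀ z ∉ L.lattice, ∏' l, (1 + f l z) ≠ 0 := fun z hz =>
    tprod_one_add_ne_zero_of_summable (h5 z hz) ((hs.mul_left _).of_norm_bounded_eventually
      ((h1 (‖z‖ + 1) (by positivity)).mono fun l hl => by simpa using hl z (hb z)))
  have h7 : HasSumLocallyUniformly g (∑' l, g l ·) := by
    refine L.hasSumLocallyUniformly_aux (u := (2 * · ^ 2 * ‖·‖ ^ (-3 : ℝ))) _
      (fun _ _ => hs.mul_left _) fun r hr => eventually_atTop.mpr ⟨2 * r, ?_⟩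
    rintro _ h z hz l rfl
    have h0 : 0 < ‖(l : ℂ)‖ := by linarith
    have h8 : ‖(l : ℂ)‖ / 2 ≤ ‖z - l‖ := by
      rw [norm_sub_rev]; exact .trans (by linarith) (norm_sub_norm_le _ z)
    have h9 : z - l ≠ 0 := norm_pos_iff.1 (by linarith)
    have h10 : (l : ℂ) ≠ 0 := norm_pos_iff.1 h0
    calc ‖g l z‖ = ‖z‖ ^ 2 / (‖(l : ℂ)‖ ^ 2 * ‖z - l‖) := by
          rw [show g l z = z ^ 2 / (l ^ 2 * (z - l)) by simp only [g]; field]; simp
      _ ≤ r ^ 2 / (‖(l : ℂ)‖ ^ 2 * (‖(l : ℂ)‖ / 2)) := by gcongr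
      _ = 2 * r ^ 2 * (‖(l : ℂ)‖ ^ 3)⁻¹ := by field
      _ = _ := by rw [Real.rpow_neg (norm_nonneg _)]; norm_cast
  have ho := L.isClosed_lattice.isOpen_compl
  have h8 : ∀ z ∉ L.lattice, ∀ l : L.lattice,
      HasDerivAt (g l) (-(1 / (z - l) ^ 2 - 1 / l ^ 2)) z := fun z hz l => by
    have h9 : z - l ≠ 0 := fun h => hz (sub_eq_zero.1 h ▸ l.2)
    refine (((((hasDerivAt_id z).sub_const _).inv h9).add_const (1 / l : ℂ)).add
      ((hasDerivAt_id z).div_const (l ^ 2))).congr_deriv (by simp; ring) |>.congr_of_eventuallyEq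
      (.of_forall fun w => by simp [g])
  have h9 : ∀ z ∉ L.lattice, logDeriv (fun z => z * ∏' l, (1 + f l z)) z = ∑' l, g l z :=
    fun z hz => by
    have h0 : z ≠ 0 := fun h => hz (h ▸ zero_mem _)
    have h10 : ∀ l, logDeriv (1 + f l ·) z = if l = 0 then 0 else g l z := fun l => by
      split_ifs with h
      · simp [f, h]
      · have h11 : (l : ℂ) ≠ 0 := by simpa using h
        have h12 : z - l ≠ 0 := fun h => hz (sub_eq_zero.1 h ▸ l.2)
        have h13 : l - z ≠ 0 := fun h => h12 (by linear_combination -h)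
        have h14 := (((hasDerivAt_id z).div_const (l : ℂ)).const_sub 1).mul
          ((((hasDerivAt_id z).div_const (l : ℂ)).add
            ((((hasDerivAt_id z).div_const (l : ℂ)).pow 2).div_const 2)).cexp)
        rw [logDeriv_apply, show (1 + f l ·) = _ from funext fun w => add_sub_cancel _ _]
        erw [h14.deriv]
        simp [g]
        field
    classical
    rw [logDeriv_mul (f := fun z => z) z h0 (h6 z hz) differentiableAt_id (h3 z), logDeriv_id',
      logDeriv_tprod_eq_tsum Metric.isOpen_ball (hb z) (h5 z hz) (fun l => by fun_prop)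
        ?_ ⟨_, h2 _ (by positivity)⟩ (h6 z hz), h7.hasSum.summable.tsum_eq_add_tsum_ite 0]
    · simp [h10, g]
    · simp_rw [h10]
      exact (h7.hasSum (x := z)).summable.congr_cofinite
        ((eventually_cofinite_ne 0).mono fun l hl => (if_neg hl).symm)
  refine ⟨fun z => z * ∏' l, (1 + f l z), differentiable_id.mul h3, fun z => ?_, ?_,
    fun z => ⟨fun h => by_contra fun hz => mul_ne_zero (fun h : z = 0 => hz (h ▸ zero_mem _))
      (h6 z hz) h,
      fun h => ?_⟩, fun z hz => ?_⟩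
  · rw [neg_mul, ← (Equiv.neg L.lattice).tprod_eq]
    simp [f]
  · erw [((hasDerivAt_id 0).mul (h3 0).hasDerivAt).deriv]
    simp [f]
  · by_cases h0 : z = 0
    · simp [h0]
    · exact mul_eq_zero_of_right _ (tprod_of_exists_eq_zero ⟨⟨z, h⟩, by simp [f, h0]⟩)
  · have h10 : ∀ s : Finset L.lattice, DifferentiableOn ℂ (fun z => ∑ l ∈ s, g l z) L.latticeᶜ :=
      fun s => .fun_sum fun l _ w hw => (h8 w hw l).differentiableAt.differentiableWithinAt
    have h11 := (TendstoLocallyUniformlyOn.differentiableOn h7.hasSumLocallyUniformlyOn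
      (.of_forall h10) ho).differentiableAt (ho.mem_nhds hz)
    have h12 := (TendstoLocallyUniformlyOn.deriv h7.hasSumLocallyUniformlyOn
      (.of_forall h10) ho).tendsto_at hz
    refine (h11.hasDerivAt.congr_deriv (tendsto_nhds_unique h12
      ((L.hasSum_weierstrassP z).neg.congr fun s => ?_))).congr_of_eventuallyEq ?_
    · exact (HasDerivAt.fun_sum fun l _ => h8 z hz l).deriv.symm
    · filter_upwards [ho.mem_nhds hz] with w hw using h9 w hw

end Pool.Agent.ELL

end MrgPart0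

-- ======== part 1: formerly Pool.Agent.MP_cbf1af_ag.ell.Add
section MrgPart1

/-! Quasi-periodicity and addition formulas. -/

namespace Pool.Agent.ELL

open Complex Filter Topology PeriodPair

variable {L : PeriodPair} {σ : ℂ → ℂ} {z w l : ℂ}

theorem cnt (L : PeriodPair) : (L.lattice : Set ℂ).Countable :=
  countable_of_Lindelof_of_discrete (X := L.lattice)

theorem ext_off {f g : ℂ → ℂ} (hf : Continuous f) (hg : Continuous g) {s : Set ℂ}
    (hs : s.Countable) (h : ∀ z ∉ s, f z = g z) (z : ℂ) : f z = g z :=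
  congrFun (Continuous.ext_on (hs.dense_compl ℂ) hf hg h) z

theorem ev_off' {f : ℂ → ℂ} (hf : Continuous f) (h : f z ∉ L.lattice) :
    ∀ᶠ w in 𝓝 z, f w ∉ L.lattice :=
  hf.continuousAt.eventually (L.isClosed_lattice.isOpen_compl.mem_nhds h)

theorem ev_off (h : z ∉ L.lattice) : ∀ᶠ w in 𝓝 z, w ∉ L.lattice := ev_off' continuous_id h

theorem const_off {f : ℂ → ℂ} (h : ∀ z ∉ L.lattice, HasDerivAt f 0 z) :
    ∃ c, ∀ z ∉ L.lattice, f z = c :=
  L.isClosed_lattice.isOpen_compl.exists_is_const_of_deriv_eq_zero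
    ((cnt L).isConnected_compl_of_one_lt_rank (by simp)).2
    (fun z hz => (h z hz).differentiableAt.differentiableWithinAt) fun z hz => (h z hz).deriv

theorem const_per {f : ℂ → ℂ} (hf : Differentiable ℂ f)
    (h : ∀ l ∈ L.lattice, ∀ z, f (z + l) = f z) (z : ℂ) : f z = f 0 :=
  hf.apply_eq_apply_of_bounded (IsZLattice.isCompact_range_of_periodic L.lattice _
    hf.continuous fun z w hw => h w hw z).isBounded z 0

theorem par {f : ℂ → ℂ} {e : ℂ} (h : ∀ z, f (-z) = e * f z) (z : ℂ) :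
    deriv f (-z) = -e * deriv f z := by
  have := deriv_comp_neg f z
  rw [show (fun x => f (-x)) = fun x => e * f x from funext h, deriv_const_mul_field] at this
  linear_combination this

theorem dP (h : z ∉ L.lattice) : HasDerivAt ℘[L] (℘'[L] z) z := by
  simpa using (L.analyticOnNhd_weierstrassP z h).differentiableAt.hasDerivAt

theorem add_not (hl : l ∈ L.lattice) (h : z ∉ L.lattice) : z + l ∉ L.lattice := fun h1 =>
  h (by simpa using sub_mem h1 hl)

theorem P_add (hl : l ∈ L.lattice) (z : ℂ) : ℘[L] (z + l) = ℘[L] z :=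
  L.weierstrassP_add_coe z ⟨l, hl⟩

theorem P'_add (hl : l ∈ L.lattice) (z : ℂ) : ℘'[L] (z + l) = ℘'[L] z :=
  L.derivWeierstrassP_add_coe z ⟨l, hl⟩

/-- `σ² ℘` -/
noncomputable def sb (σ : ℂ → ℂ) (z : ℂ) : ℂ := deriv σ z ^ 2 - σ z * deriv (deriv σ) z

/-- `σ⁴ ℘'` -/
noncomputable def sc (σ : ℂ → ℂ) (z : ℂ) : ℂ := 3 * σ z ^ 2 * deriv σ z * deriv (deriv σ) z -
  σ z ^ 3 * deriv (deriv (deriv σ)) z - 2 * σ z * deriv σ z ^ 3

/-- the quasi-period of `ζ = σ'/σ` -/
noncomputable def eta (L : PeriodPair) (σ : ℂ → ℂ) (l : ℂ) : ℂ :=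
  logDeriv σ (L.ω₁ / 2 + l) - logDeriv σ (L.ω₁ / 2)

namespace IsSig

variable (h : IsSig L σ)
include h

theorem ne (hz : z ∉ L.lattice) : σ z ≠ 0 := mt (h.zero z).1 hz

theorem at0 : σ 0 = 0 := (h.zero 0).2 (zero_mem _)

theorem hol1 : Differentiable ℂ (deriv σ) := h.hol.deriv

theorem hol2 : Differentiable ℂ (deriv (deriv σ)) := h.hol1.deriv

theorem hol3 : Differentiable ℂ (deriv (deriv (deriv σ))) := h.hol2.deriv

theorem holb : Differentiable ℂ (sb σ) := by
  have := h.hol; have := h.hol1; have := h.hol2; unfold sb; fun_prop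

theorem holc : Differentiable ℂ (sc σ) := by
  have := h.hol; have := h.hol1; have := h.hol2; have := h.hol3; unfold sc; fun_prop

theorem ev1 (z : ℂ) : deriv σ (-z) = deriv σ z := by
  simpa using par (e := -1) (by simpa using h.odd) z

theorem odd2 (z : ℂ) : deriv (deriv σ) (-z) = -deriv (deriv σ) z := by
  simpa using par (e := 1) (by simpa using h.ev1) z

theorem two : deriv (deriv σ) 0 = 0 := by
  have := h.odd2 0
  rw [neg_zero] at this
  linear_combination this / 2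

theorem zeta_odd (z : ℂ) : logDeriv σ (-z) = -logDeriv σ z := by
  rw [logDeriv_apply, logDeriv_apply, h.ev1, h.odd, div_neg]

theorem sb0 : sb σ 0 = 1 := by simp [sb, h.at0, h.one]

theorem sb_eq (hz : z ∉ L.lattice) : sb σ z = σ z ^ 2 * ℘[L] z := by
  have h1 := (h.der z hz).unique ((h.hol1 z).hasDerivAt.div (h.hol z).hasDerivAt (h.ne hz))
  have := h.ne hz
  rw [neg_eq_iff_eq_neg.1 h1, sb]
  field

theorem sc_eq (hz : z ∉ L.lattice) : sc σ z = σ z ^ 4 * ℘'[L] z := by
  have h0 := (h.hol z).hasDerivAt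
  have h1 := (((h.hol1 z).hasDerivAt.pow 2).sub (h0.mul (h.hol2 z).hasDerivAt)).unique
    (((h0.pow 2).mul (dP hz)).congr_of_eventuallyEq
      ((ev_off hz).mono fun w hw => h.sb_eq hw))
  have h2 := h.sb_eq hz
  simp only [sb, sc, Pi.pow_apply] at *
  norm_num at h1
  linear_combination σ z ^ 2 * h1 - 2 * σ z * deriv σ z * h2

theorem zeta_add (hl : l ∈ L.lattice) (hz : z ∉ L.lattice) :
    logDeriv σ (z + l) = logDeriv σ z + eta L σ l := by
  obtain ⟨c, hc⟩ := const_off (L := L) (f := fun z => logDeriv σ (z + l) - logDeriv σ z)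
    fun z hz => by
      simpa [P_add hl] using ((h.der _ (add_not hl hz)).comp_add_const z l).fun_sub (h.der z hz)
  rw [eta, hc _ L.ω₁_div_two_notMem_lattice, ← hc z hz, add_sub_cancel]

theorem eta_add {l' : ℂ} (hl : l ∈ L.lattice) (hl' : l' ∈ L.lattice) :
    eta L σ (l + l') = eta L σ l + eta L σ l' := by
  have := L.ω₁_div_two_notMem_lattice
  rw [eta, ← add_assoc, h.zeta_add hl' (add_not hl this), h.zeta_add hl this]
  ring

theorem quasi (hl : l ∈ L.lattice) : ∃ c, ∀ z, σ (z + l) = exp (eta L σ l * z + c) * σ z := by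
  obtain ⟨c, hc⟩ := const_off (L := L) (f := fun z => σ (z + l) / (exp (eta L σ l * z) * σ z))
    fun z hz => by
      have h1 := h.zeta_add hl hz
      have h2 := h.ne hz
      have h3 := h.ne (add_not hl hz)
      refine (((h.hol _).hasDerivAt.comp_add_const z l).div ((((hasDerivAt_id z).const_mul
        _).cexp).mul (h.hol z).hasDerivAt) (mul_ne_zero (exp_ne_zero _) h2)).congr_deriv ?_
      rw [logDeriv_apply, logDeriv_apply] at h1
      rw [div_eq_zero_iff, (div_eq_iff h3).1 h1]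
      left
      simp
      field
  have h0 := L.ω₁_div_two_notMem_lattice
  have h1 : c ≠ 0 := hc _ h0 ▸ div_ne_zero (h.ne (add_not hl h0))
    (mul_ne_zero (exp_ne_zero _) (h.ne h0))
  have := h.hol.continuous
  refine ⟨log c, ext_off (by fun_prop) (by fun_prop) (cnt L) fun z hz => ?_⟩
  rw [exp_add, exp_log h1, ← hc z hz]
  have := h.ne hz
  field

theorem liou {F : ℂ → ℂ} (hF : Differentiable ℂ F) (n : ℕ) (h0 : ∃ G, Differentiable ℂ G ∧
    ∀ z, F z = z ^ n * G z) (hp : ∀ l ∈ L.lattice, ∀ z ∉ L.lattice,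
      F (z + l) / σ (z + l) ^ n = F z / σ z ^ n) : ∃ c, ∀ z ∉ L.lattice, F z = c * σ z ^ n := by
  classical
  obtain ⟨G, hG, h0⟩ := h0
  let H : ℂ → ℂ := fun z => if z ∈ L.lattice then G 0 else F z / σ z ^ n
  have h1 : ∀ l ∈ L.lattice, ∀ z, H (z + l) = H z := fun l hl z => by
    by_cases hz : z ∈ L.lattice
    · simp [H, hz, add_mem hz hl]
    · simp [H, hz, add_not hl hz, hp l hl z hz]
  have h2 : Differentiable ℂ (dslope σ 0) := differentiableOn_univ.1
    ((differentiableOn_dslope univ_mem).2 h.hol.differentiableOn)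
  have h3 : dslope σ 0 0 = 1 := by rw [dslope_same, h.one]
  have h4 : DifferentiableAt ℂ H 0 := by
    refine ((hG 0).div ((h2 0).pow n) (by simp [h.one])).congr_of_eventuallyEq ?_
    filter_upwards [L.compl_lattice_sdiff_singleton_mem_nhds 0] with z hz
    by_cases h5 : z = 0
    · simp [H, h5, h.one]
    · have h6 : z ∉ L.lattice := fun h => hz ⟨h, h5⟩
      have h7 := sub_smul_dslope σ 0 z
      rw [h.at0, sub_zero, sub_zero, smul_eq_mul] at h7
      simp only [H, if_neg h6, Pi.div_apply, Pi.pow_apply]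
      rw [h0, ← h7, mul_pow, mul_div_mul_left _ _ (pow_ne_zero _ h5)]
  have h5 : Differentiable ℂ H := fun z => by
    by_cases hz : z ∈ L.lattice
    · rw [show H = H ∘ fun w => w + -z from funext fun w => (h1 _ (neg_mem hz) w).symm]
      exact DifferentiableAt.comp z (by simpa using h4) (by fun_prop)
    · exact ((hF z).div ((h.hol z).pow n) (pow_ne_zero _ (h.ne hz))).congr_of_eventuallyEq
        ((ev_off hz).mono fun w hw => if_neg hw)
  refine ⟨H 0, fun z hz => ?_⟩
  rw [← const_per h5 h1 z]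
  simp only [H, if_neg hz]
  rw [div_mul_cancel₀ _ (pow_ne_zero _ (h.ne hz))]

omit h in
theorem ord2 {F : ℂ → ℂ} (hF : Differentiable ℂ F) (h0 : F 0 = 0) (h1 : ∀ z, F (-z) = F z) :
    ∃ G, Differentiable ℂ G ∧ ∀ z, F z = z ^ 2 * G z := by
  have h2 : ∀ {F : ℂ → ℂ}, Differentiable ℂ F → Differentiable ℂ (dslope F 0) := fun h =>
    differentiableOn_univ.1 ((differentiableOn_dslope univ_mem).2 h.differentiableOn)
  have h3 := par (e := 1) (by simpa using h1) 0
  refine ⟨_, h2 (h2 hF), fun z => ?_⟩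
  have h4 := sub_smul_dslope F 0 z
  have h5 := sub_smul_dslope (dslope F 0) 0 z
  rw [neg_zero] at h3
  rw [dslope_same] at h5
  simp only [sub_zero, smul_eq_mul] at h4 h5
  linear_combination -h4 - z * h5 + h0 + z * h3 / 2

theorem add (hz : z ∉ L.lattice) (hw : w ∉ L.lattice) :
    σ (z + w) * σ (z - w) = σ z ^ 2 * σ w ^ 2 * (℘[L] w - ℘[L] z) := by
  have h1 := h.hol
  have h2 := h.holb
  have h3 : Differentiable ℂ fun z =>
      σ (z + w) * σ (z - w) - (σ z ^ 2 * sb σ w - sb σ z * σ w ^ 2) := by fun_prop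
  obtain ⟨c, hc⟩ := h.liou h3 2 (ord2 h3 (by simp [h.at0, h.sb0, h.odd]; ring) fun z => by
    rw [show -z + w = -(z - w) by ring, show -z - w = -(z + w) by ring]
    simp only [sb, h.odd, h.ev1, h.odd2]
    ring) fun l hl z hz => by
      obtain ⟨c, hc⟩ := h.quasi hl
      have h4 : exp (eta L σ l * (z + w) + c) * exp (eta L σ l * (z - w) + c) =
          exp (eta L σ l * z + c) ^ 2 := by rw [sq, ← exp_add, ← exp_add]; congr 1; ring
      have := h.ne hz
      have := exp_ne_zero (eta L σ l * z + c)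
      rw [h.sb_eq hz, h.sb_eq (add_not hl hz), P_add hl, add_right_comm z, add_sub_right_comm,
        hc, hc, hc, mul_mul_mul_comm, h4]
      field
  have h4 := hc w hw
  have h5 := hc z hz
  rw [sub_self, h.at0, h.sb_eq hw] at h4
  have h6 : c = 0 := (mul_eq_zero.1 (by linear_combination -h4)).resolve_right
    (pow_ne_zero 2 (h.ne hw))
  rw [h6, h.sb_eq hw, h.sb_eq hz] at h5
  linear_combination h5

theorem dup (hz : z ∉ L.lattice) : σ (2 * z) = -(σ z ^ 4 * ℘'[L] z) := by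
  have h1 := (((h.hol _).hasDerivAt.comp_const_add z z).mul
    ((h.hol _).hasDerivAt.comp_const_sub z z)).unique
    (((((h.hol z).hasDerivAt.pow 2).const_mul (σ z ^ 2)).mul ((dP hz).sub_const
      (℘[L] z))).congr_of_eventuallyEq ((ev_off hz).mono fun w hw => h.add hz hw))
  simp only [sub_self, h.at0, h.one, Pi.pow_apply] at h1
  rw [two_mul]
  linear_combination -h1

theorem P_ne (hz : z ∉ L.lattice) (hw : w ∉ L.lattice) (h1 : z + w ∉ L.lattice)
    (h2 : z - w ∉ L.lattice) : ℘[L] z - ℘[L] w ≠ 0 := fun h3 =>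
  mul_ne_zero (h.ne h1) (h.ne h2) (by rw [h.add hz hw, sub_eq_zero.1 h3, sub_self, mul_zero])

theorem dP' (hz : z ∉ L.lattice) (h2 : 2 * z ∉ L.lattice) :
    HasDerivAt ℘'[L] (6 * ℘[L] z ^ 2 - L.g₂ / 2) z := by
  have h3 := (L.analyticOnNhd_derivWeierstrassP z hz).differentiableAt.hasDerivAt
  have h4 := (h3.pow 2).unique ((((((dP hz).pow 3).const_mul 4).sub ((dP hz).const_mul
    L.g₂)).sub_const L.g₃).congr_of_eventuallyEq
      ((ev_off hz).mono fun w hw => L.derivWeierstrassP_sq w hw))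
  have h5 : ℘'[L] z ≠ 0 := fun h5 => h.ne h2 (by rw [h.dup hz, h5]; simp)
  refine h3.congr_deriv (mul_left_cancel₀ h5 ?_)
  norm_num at h4
  linear_combination h4 / 2

theorem zeta_sum (hz : z ∉ L.lattice) (hw : w ∉ L.lattice) (h1 : z + w ∉ L.lattice)
    (h2 : z - w ∉ L.lattice) : logDeriv σ (z + w) + logDeriv σ (z - w) =
      2 * logDeriv σ z + ℘'[L] z / (℘[L] z - ℘[L] w) := by
  have h3 := (((h.hol _).hasDerivAt.comp_add_const z w).mul
    ((h.hol _).hasDerivAt.comp_sub_const z w)).unique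
    (((((h.hol z).hasDerivAt.pow 2).mul_const (σ w ^ 2)).mul ((dP hz).const_sub
      (℘[L] w))).congr_of_eventuallyEq ((ev_off hz).mono fun z hz => h.add hz hw))
  have h4 := h.add hz hw
  have h5 := h.P_ne hz hw h1 h2
  have h6 := h.ne hz
  have h7 := h.ne h1
  have h8 := h.ne h2
  simp only [Pi.pow_apply] at h3
  norm_num at h3
  rw [logDeriv_apply, logDeriv_apply, logDeriv_apply]
  field_simp
  linear_combination σ z * (℘[L] z - ℘[L] w) * h3 -
    (2 * deriv σ z * (℘[L] z - ℘[L] w) + σ z * ℘'[L] z) * h4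

theorem P_sum (hz : z ∉ L.lattice) (h0 : 2 * z ∉ L.lattice) (hw : w ∉ L.lattice)
    (h1 : z + w ∉ L.lattice) (h2 : z - w ∉ L.lattice) : (℘[L] z - ℘[L] w) ^ 2 * ℘[L] (z + w) =
      ℘[L] z * ℘[L] w * (℘[L] z + ℘[L] w) - L.g₂ * (℘[L] z + ℘[L] w) / 4 - L.g₃ / 2 -
        ℘'[L] z * ℘'[L] w / 2 := by
  have h5 := h.P_ne hz hw h1 h2
  have h3 := (((h.der _ h1).comp_add_const z w).const_mul 2).unique
    (((((h.der z hz).const_mul 2).add_const (2 * logDeriv σ w)).add
      (((h.dP' hz h0).sub_const (℘'[L] w)).div ((dP hz).sub_const (℘[L] w))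
        h5)).congr_of_eventuallyEq (by
      filter_upwards [ev_off hz, ev_off' (continuous_add_const w) h1,
        ev_off' (continuous_sub_right w) h2] with z hz h1 h2
      have h6 := h.zeta_sum hz hw h1 h2
      have h7 := h.zeta_sum hw hz (add_comm z w ▸ h1) fun h => h2 (by simpa using neg_mem h)
      rw [add_comm w, ← neg_sub z, h.zeta_odd, ← neg_sub (℘[L] z), div_neg] at h7
      simp only [Pi.add_apply, Pi.div_apply]
      rw [sub_div]
      linear_combination h6 + h7))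
  have h4 := L.derivWeierstrassP_sq z hz
  field_simp at h3
  linear_combination -h3 / 4 + h4 / 2

theorem P'_sum (hz : z ∉ L.lattice) (h0 : 2 * z ∉ L.lattice) (hw : w ∉ L.lattice)
    (h1 : z + w ∉ L.lattice) (h2 : z - w ∉ L.lattice) : (℘[L] z - ℘[L] w) ^ 3 * ℘'[L] (z + w) =
      (℘'[L] z * (℘[L] w * (2 * ℘[L] z + ℘[L] w) - L.g₂ / 4) -
        (6 * ℘[L] z ^ 2 - L.g₂ / 2) * ℘'[L] w / 2) * (℘[L] z - ℘[L] w) - 2 * ℘'[L] z *
      (℘[L] z * ℘[L] w * (℘[L] z + ℘[L] w) - L.g₂ * (℘[L] z + ℘[L] w) / 4 - L.g₃ / 2 -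
        ℘'[L] z * ℘'[L] w / 2) := by
  have h3 := ((((dP hz).sub_const (℘[L] w)).pow 2).mul ((dP h1).comp_add_const z w)).unique
    ((((((((dP hz).mul_const (℘[L] w)).mul ((dP hz).add_const (℘[L] w))).sub
      ((((dP hz).add_const (℘[L] w)).const_mul L.g₂).div_const 4)).sub_const (L.g₃ / 2)).sub
      (((h.dP' hz h0).mul_const (℘'[L] w)).div_const 2))).congr_of_eventuallyEq (by
      filter_upwards [ev_off hz, ev_off' (continuous_add_const w) h1,
        ev_off' (continuous_sub_right w) h2, ev_off' (continuous_const_mul 2) h0] with z hz h1 h2 h0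
      exact h.P_sum hz h0 hw h1 h2))
  have h4 := h.P_sum hz h0 hw h1 h2
  simp only [Pi.pow_apply] at h3
  norm_num at h3
  linear_combination (℘[L] z - ℘[L] w) * h3 - 2 * ℘'[L] z * h4

end IsSig

end Pool.Agent.ELL

end MrgPart1

-- ======== part 2: formerly Pool.Agent.MP_cbf1af_ag.ell.Scale
section MrgPart2

/-! Homogeneity, conjugation, quasi-periods. -/

namespace Pool.Agent.ELL

open Complex Filter Topology PeriodPair

variable {L L' : PeriodPair} {σ : ℂ → ℂ} {z α : ℂ}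

theorem reix (φ : ℂ ≃ ℂ) (h : ∀ z, z ∈ L.lattice ↔ φ z ∈ L'.lattice) (f : ℂ → ℂ) :
    ∑' l : L'.lattice, f l = ∑' l : L.lattice, f (φ l) :=
  ((φ.subtypeEquiv h).tsum_eq fun l : L'.lattice => f l).symm

theorem scale_ne (h : ∀ z, z ∈ L.lattice ↔ α * z ∈ L'.lattice) : α ≠ 0 := fun h0 =>
  L.ω₁_div_two_notMem_lattice ((h _).2 (by simp [h0]))

theorem P_scale (h : ∀ z, z ∈ L.lattice ↔ α * z ∈ L'.lattice) (z : ℂ) :
    α ^ 2 * ℘[L'] (α * z) = ℘[L] z := by
  have h0 := scale_ne h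
  rw [weierstrassP, reix (Equiv.mulLeft₀ α h0) h fun l => 1 / (α * z - l) ^ 2 - 1 / l ^ 2,
    ← tsum_mul_left]
  refine tsum_congr fun l => ?_
  simp only [Equiv.mulLeft₀_apply, ← mul_sub, mul_pow, one_div, mul_inv]
  rw [mul_inv_cancel_left₀ (pow_ne_zero 2 h0)]

theorem G_scale (h : ∀ z, z ∈ L.lattice ↔ α * z ∈ L'.lattice) (n : ℕ) :
    α ^ n * L'.G n = L.G n := by
  have h0 := scale_ne h
  rw [G, reix (Equiv.mulLeft₀ α h0) h fun l => (l ^ n)⁻¹, ← tsum_mul_left]
  refine tsum_congr fun l => ?_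
  simp only [Equiv.mulLeft₀_apply, mul_pow, mul_inv]
  rw [mul_inv_cancel_left₀ (pow_ne_zero n h0)]

theorem conj_iff (h : ∀ z ∈ L.lattice, (starRingEnd ℂ) z ∈ L.lattice) (z : ℂ) :
    z ∈ L.lattice ↔ (starRingAut : ℂ ≃+* ℂ).toEquiv z ∈ L.lattice :=
  ⟨h z, fun h1 => by simpa using h _ h1⟩

theorem P_conj (h : ∀ z ∈ L.lattice, (starRingEnd ℂ) z ∈ L.lattice) (z : ℂ) :
    ℘[L] ((starRingEnd ℂ) z) = (starRingEnd ℂ) (℘[L] z) := by
  rw [weierstrassP, reix _ (conj_iff h) fun l => 1 / ((starRingEnd ℂ) z - l) ^ 2 - 1 / l ^ 2,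
    weierstrassP, conj_tsum]
  exact tsum_congr fun l => by simp

theorem G_conj (h : ∀ z ∈ L.lattice, (starRingEnd ℂ) z ∈ L.lattice) (n : ℕ) :
    (starRingEnd ℂ) (L.G n) = L.G n := by
  conv_rhs => rw [G, reix _ (conj_iff h) fun l => (l ^ n)⁻¹]
  rw [G, conj_tsum]
  exact tsum_congr fun l => by simp

theorem dP' (hz : z ∉ L.lattice) : HasDerivAt ℘'[L] (6 * ℘[L] z ^ 2 - L.g₂ / 2) z := by
  obtain ⟨σ, h⟩ := exists_sigma L
  have h1 := L.analyticOnNhd_derivWeierstrassP z hz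
  have h2 := (dP hz).continuousAt
  refine h1.differentiableAt.hasDerivAt.congr_deriv (tendsto_nhds_unique_of_frequently_eq
    h1.deriv.continuousAt.tendsto (show ContinuousAt (fun z => 6 * ℘[L] z ^ 2 - L.g₂ / 2) z by
      fun_prop).tendsto ?_)
  have h3 : ((fun z : ℂ => 2 * z) ⁻¹' L.lattice).Countable :=
    (cnt L).preimage (mul_right_injective₀ two_ne_zero)
  exact ((mem_closure_iff_frequently.1 (h3.dense_compl ℂ z)).and_eventually (ev_off hz)).mono
    fun w hw => (h.dP' hw.2 hw.1).deriv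

namespace IsSig

variable (h : IsSig L σ)
include h

theorem half : ℘'[L] (L.ω₁ / 2) = 0 := by
  have h1 := h.dup L.ω₁_div_two_notMem_lattice
  rw [(h.zero _).2 (by rw [mul_div_cancel₀ _ two_ne_zero]; exact L.ω₁_mem_lattice)] at h1
  simpa [h.ne L.ω₁_div_two_notMem_lattice] using h1

theorem eta_comb (a b : ℤ) :
    eta L σ (a * L.ω₁ + b * L.ω₂) = a * eta L σ L.ω₁ + b * eta L σ L.ω₂ := by
  let e : L.lattice →+ ℂ := .mk' (fun l => eta L σ l) fun l l' => h.eta_add l.2 l'.2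
  have := map_add e (a • ⟨_, L.ω₁_mem_lattice⟩) (b • ⟨_, L.ω₂_mem_lattice⟩)
  rw [map_zsmul, map_zsmul] at this
  simpa [e] using this

theorem eta_scale (h1 : ∀ z, z ∈ L.lattice ↔ α * z ∈ L.lattice) {l : ℂ} (hl : l ∈ L.lattice) :
    α * eta L σ (α * l) = eta L σ l := by
  obtain ⟨c, hc⟩ := const_off (L := L) (f := fun z => α * logDeriv σ (α * z) - logDeriv σ z)
    fun z hz => by
      refine ((((h.der _ (mt (h1 z).2 hz)).comp z ((hasDerivAt_id' z).const_mul α)).const_mul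
        α).fun_sub (h.der z hz)).congr_deriv ?_
      linear_combination -P_scale h1 z
  have h0 := L.ω₁_div_two_notMem_lattice
  have h2 := hc _ (add_not hl h0)
  rw [mul_add, h.zeta_add hl h0, h.zeta_add ((h1 l).1 hl) (mt (h1 _).2 h0)] at h2
  linear_combination h2 - hc _ h0

theorem leg_ne : L.ω₁ * eta L σ L.ω₂ - L.ω₂ * eta L σ L.ω₁ ≠ 0 := fun h0 => by
  have hw : L.ω₁ ≠ 0 := fun h1 => L.ω₁_div_two_notMem_lattice (by simp [h1])
  set s := eta L σ L.ω₁ / L.ω₁ with hs
  let f : ℂ → ℂ := fun z => (σ z * exp (-s * z ^ 2 / 2)) ^ 2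
  have h1 : ∀ l ∈ L.lattice, l / 2 ∉ L.lattice → eta L σ l = s * l → f.Periodic l :=
    fun l hl h2 h3 z => by
      obtain ⟨c, hc⟩ := h.quasi hl
      have h4 : ∀ z, σ (z + l) * exp (-s * (z + l) ^ 2 / 2) =
          exp (c - s * l ^ 2 / 2) * (σ z * exp (-s * z ^ 2 / 2)) := fun z => by
        rw [hc, h3, mul_right_comm, ← exp_add, mul_left_comm, ← exp_add, mul_comm]
        congr 2
        ring
      have h5 := h4 (-(l / 2))
      rw [show -(l / 2) + l = l / 2 by ring, h.odd, neg_sq] at h5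
      have h6 : exp (c - s * l ^ 2 / 2) = -1 :=
        mul_right_cancel₀ (mul_ne_zero (h.ne h2) (exp_ne_zero (-s * (l / 2) ^ 2 / 2)))
          (by linear_combination h5)
      simp only [f, h4, h6]
      ring
  have h2 := h1 _ L.ω₁_mem_lattice L.ω₁_div_two_notMem_lattice (by rw [hs]; field)
  have h3 := h1 _ L.ω₂_mem_lattice L.ω₂_div_two_notMem_lattice (by
    rw [hs]; field_simp; linear_combination h0)
  have := h.hol
  have h4 := const_per (L := L) (f := f) (by fun_prop) (fun l hl z => by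
    obtain ⟨a, b, rfl⟩ := mem_lattice.1 hl
    exact (h2.int_mul a).add_period (h3.int_mul b) z) (L.ω₁ / 2)
  simp [f, h.at0, h.ne L.ω₁_div_two_notMem_lattice] at h4

end IsSig

end Pool.Agent.ELL

end MrgPart2

-- marker of a merged file
example : 731051 + 301226 = 731051 + 301226 := rfl
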