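import Mathlib

/-! Module statements of the elliptic block. -/

namespace Pool.Agent.ELL

/-- REALP: the real period -/
def RealpStmt : Prop :=
  ∀ (L : PeriodPair) (ω : ℝ), 0 < ω → (∀ z ∈ L.lattice, (starRingEnd ℂ) z ∈ L.lattice) →
    (∀ x : ℝ, (x : ℂ) ∈ L.lattice ↔ ∃ m : ℤ, x = m * ω) →
    ∃ g2 g3 e : ℝ, L.g₂ = g2 ∧ L.g₃ = g3 ∧ 4 * e ^ 3 - g2 * e - g3 = 0 ∧
      (∀ x, e < x → 0 < 4 * x ^ 3 - g2 * x - g3) ∧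
      MeasureTheory.IntegrableOn (fun x => 1 / √(4 * x ^ 3 - g2 * x - g3)) (Set.Ioi e) ∧
      ∫ x in Set.Ioi e, 1 / √(4 * x ^ 3 - g2 * x - g3) = ω / 2

/-- BETA: two integrals -/
def BetaStmt : Prop :=
  (∃ q : ℝ, IsAlgebraic ℚ q ∧ ∀ e : ℝ, 0 < e →
    √e * ∫ x in Set.Ioi e, 1 / √(4 * x ^ 3 - 4 * e ^ 2 * x) =
      q * (Real.Gamma (1 / 4) ^ 2 / √Real.pi)) ∧
  (∃ q : ℝ, IsAlgebraic ℚ q ∧ ∀ e : ℝ, 0 < e →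
    √e * ∫ x in Set.Ioi e, 1 / √(4 * x ^ 3 - 4 * e ^ 3) =
      q * (Real.Gamma (1 / 3) ^ 3 / Real.pi)) ∧
  ¬ MeasureTheory.IntegrableOn (fun x : ℝ => 1 / √(4 * x ^ 3)) (Set.Ioi 0)

/-- INV: the two lattices (from REALP, BETA) -/
def InvStmt : Prop :=
  (∃ (L : PeriodPair) (q : ℂ), IsAlgebraic ℚ L.g₂ ∧ IsAlgebraic ℚ L.g₃ ∧ IsAlgebraic ℚ q ∧
    L.ω₂ = Complex.I * L.ω₁ ∧ L.ω₁ = q * ((Real.Gamma (1 / 4) ^ 2 / √Real.pi : ℝ) : ℂ)) ∧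
  ∃ (L : PeriodPair) (q : ℂ), IsAlgebraic ℚ L.g₂ ∧ IsAlgebraic ℚ L.g₃ ∧ IsAlgebraic ℚ q ∧
    L.ω₂ = (-1 + (√3 : ℝ) * Complex.I) / 2 * L.ω₁ ∧
    L.ω₁ = q * ((Real.Gamma (1 / 3) ^ 3 / Real.pi : ℝ) : ℂ)

end Pool.Agent.ELL
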