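import Mathlib
import Pool.Agent.MP_cbf1af_ag.ell.Stmt

/-! BETA: two elliptic integrals through the beta function. -/

namespace Pool.Agent.ELL

open Real MeasureTheory Set

namespace Bt

theorem beta_int {a b : ℝ} (ha : 0 < a) (hb : 0 < b) :
    ∫ t in Ioo (0 : ℝ) 1, t ^ (a - 1) * (1 - t) ^ (b - 1) = Gamma a * Gamma b / Gamma (a + b) := by
  have h := Complex.betaIntegral_eq_Gamma_mul_div (a : ℂ) b (by simpa) (by simpa)
  rw [← Complex.ofReal_add, Complex.Gamma_ofReal, Complex.Gamma_ofReal, Complex.Gamma_ofReal,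
    Complex.betaIntegral, intervalIntegral.integral_of_le zero_le_one,
    integral_Ioc_eq_integral_Ioo] at h
  rw [← Complex.ofReal_inj, ← integral_complex_ofReal]
  push_cast
  rw [← h]
  refine setIntegral_congr_fun measurableSet_Ioo fun t ht => ?_
  rw [Complex.ofReal_cpow ht.1.le, Complex.ofReal_cpow (sub_nonneg.2 ht.2.le)]
  push_cast
  rfl

theorem subst {a e : ℝ} (ha : 0 < a) (he : 0 < e) (P : ℝ → ℝ)
    (hP : ∀ t ∈ Ioo (0 : ℝ) 1, P (e * t ^ (-a)) = 4 * (e * t ^ (-a)) ^ 3 * (1 - t)) :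
    √e * ∫ x in Ioi e, 1 / √(P x) = a / 2 * (Gamma (a / 2) * √π / Gamma (a / 2 + 1 / 2)) := by
  have him : (fun t : ℝ => e * t ^ (-a)) '' Ioo 0 1 = Ioi e := by
    ext x
    constructor
    · rintro ⟨t, ht, rfl⟩
      exact lt_mul_of_one_lt_right he (one_lt_rpow_of_pos_of_lt_one_of_neg ht.1 ht.2 (by linarith))
    · intro hx
      have h1 : 1 < x / e := (one_lt_div he).2 hx
      refine ⟨(x / e) ^ (-a)⁻¹, ⟨by positivity, rpow_lt_one_of_one_lt_of_neg h1 ?_⟩, ?_⟩
      · exact inv_lt_zero.2 (by linarith)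
      · simp only
        rw [rpow_inv_rpow (by linarith) (by linarith), mul_div_cancel₀ _ he.ne']
  rw [← him, integral_image_eq_integral_abs_deriv_smul measurableSet_Ioo
    (f' := fun t => e * (-a * t ^ (-a - 1)))
    (fun t ht => ((hasDerivAt_rpow_const (Or.inl ht.1.ne')).const_mul e).hasDerivWithinAt)
    (fun t ht s hs h => (rpow_left_inj ht.1.le hs.1.le (by linarith)).1
      (mul_left_cancel₀ he.ne' h)),
    ← Gamma_one_half_eq, ← beta_int (by positivity) (by norm_num), ← integral_const_mul,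
    ← integral_const_mul]
  refine setIntegral_congr_fun measurableSet_Ioo fun t ht => ?_
  have ht0 := ht.1
  have h1 : 0 < 1 - t := sub_pos.2 ht.2
  obtain ⟨s, hs⟩ : ∃ s, s = t ^ (a / 2) := ⟨_, rfl⟩
  have hs0 : 0 < s := hs ▸ rpow_pos_of_pos ht0 _
  have e1 : t ^ (-a) = (s ^ 2)⁻¹ := by
    rw [hs, ← rpow_natCast, ← rpow_mul ht0.le, rpow_neg ht0.le]; norm_num
  have e2 : (1 - t) ^ ((1 : ℝ) / 2 - 1) = (√(1 - t))⁻¹ := by
    rw [sqrt_eq_rpow, ← rpow_neg h1.le]; norm_num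
  have e3 : √(4 * (e * (s ^ 2)⁻¹) ^ 3 * (1 - t)) = 2 * e * √e * √(1 - t) / s ^ 3 := by
    rw [sqrt_eq_iff_mul_self_eq (by positivity) (by positivity)]
    have := mul_self_sqrt he.le
    have := mul_self_sqrt h1.le
    field_simp
    rw [sq_sqrt he.le, sq_sqrt h1.le]
    ring
  have h2 := sqrt_pos.2 he
  have h3 := sqrt_pos.2 h1
  simp only [smul_eq_mul]
  rw [hP t ht, rpow_sub_one ht0.ne', rpow_sub_one ht0.ne', ← hs, e1, e2, e3, neg_mul, mul_neg,
    abs_neg, abs_of_pos (by positivity)]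
  field_simp

theorem alg_of_pow {x : ℝ} {n : ℕ} (hn : 0 < n) (q : ℚ) (h : x ^ n = q) : IsAlgebraic ℚ x :=
  IsAlgebraic.of_pow hn (h ▸ isAlgebraic_algebraMap q)

end Bt

open Bt in
theorem beta : BetaStmt := by
  have hpi := sqrt_pos.2 pi_pos
  have hpi2 := mul_self_sqrt pi_pos.le
  refine ⟨⟨√2 / 8, alg_of_pow two_pos (1 / 32) (by rw [div_pow, sq_sqrt zero_le_two]; norm_num),
    fun e he => ?_⟩, ⟨2 ^ (2 / 3 : ℝ) / 8, alg_of_pow three_pos (1 / 128) (by
      rw [div_pow, ← rpow_natCast, ← rpow_mul zero_le_two]; norm_num), fun e he => ?_⟩, fun h => ?_⟩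
  · rw [subst (a := 1 / 2) (by norm_num) he (fun x => 4 * x ^ 3 - 4 * e ^ 2 * x) fun t ht => ?_]
    · have h1 := Gamma_mul_Gamma_one_sub (1 / 4)
      rw [mul_one_div, sin_pi_div_four] at h1
      have h2 := Gamma_pos_of_pos (s := 1 - 1 / 4) (by norm_num)
      have h3 := mul_self_sqrt (zero_le_two (α := ℝ))
      have h4 := sqrt_pos.2 (zero_lt_two (α := ℝ))
      rw [show (1 / 2 / 2 : ℝ) = 1 / 4 by norm_num, show (1 / 4 + 1 / 2 : ℝ) = 1 - 1 / 4 by norm_num]
      rw [eq_div_iff (by positivity)] at h1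
      generalize Gamma (1 - 1 / 4) = y at *
      generalize Gamma (1 / 4) = x at *
      field_simp
      linear_combination 8 * x * hpi2 - 8 * x * h1
    · have h1 : (t ^ (-(1 / 2) : ℝ)) ^ 2 * t = 1 := by
        rw [← rpow_natCast, ← rpow_mul ht.1.le, ← rpow_add_one ht.1.ne']; norm_num
      linear_combination 4 * e ^ 3 * t ^ (-(1 / 2) : ℝ) * h1
  · rw [subst (a := 1 / 3) (by norm_num) he (fun x => 4 * x ^ 3 - 4 * e ^ 3) fun t ht => ?_]
    · have h1 := Gamma_mul_Gamma_one_sub (1 / 3)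
      rw [mul_one_div, sin_pi_div_three] at h1
      have h2 := Gamma_pos_of_pos (s := 1 - 1 / 3) (by norm_num)
      have h3 := mul_self_sqrt (zero_le_three (α := ℝ))
      have h4 := sqrt_pos.2 (zero_lt_three (α := ℝ))
      have h5 := Gamma_mul_Gamma_add_half (1 / 6)
      rw [show (2 * (1 / 6) : ℝ) = 1 / 3 by norm_num, show (1 / 6 + 1 / 2 : ℝ) = 1 - 1 / 3 by norm_num,
        show (2 : ℝ) ^ (1 - 1 / 3 : ℝ) = 2 ^ (2 / 3 : ℝ) by norm_num, ← eq_div_iff h2.ne'] at h5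
      rw [show (1 / 3 / 2 : ℝ) = 1 / 6 by norm_num, show (1 / 6 + 1 / 2 : ℝ) = 1 - 1 / 3 by norm_num,
        h5]
      rw [eq_div_iff (by positivity)] at h1
      have h6 : 3 * (Gamma (1 / 3) * Gamma (1 - 1 / 3)) ^ 2 = 4 * π ^ 2 := by
        rw [← h1]; linear_combination -(Gamma (1 / 3) * Gamma (1 - 1 / 3)) ^ 2 * h3
      have h7 := pi_pos
      generalize Gamma (1 - 1 / 3) = y at *
      generalize Gamma (1 / 3) = x at *
      generalize (2 : ℝ) ^ (2 / 3 : ℝ) = c at *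
      field_simp
      linear_combination 8 * π * x * c * hpi2 - 2 * x * c * h6
    · have h1 : (t ^ (-(1 / 3) : ℝ)) ^ 3 * t = 1 := by
        rw [← rpow_natCast, ← rpow_mul ht.1.le, ← rpow_add_one ht.1.ne']; norm_num
      linear_combination 4 * e ^ 3 * h1
  · refine not_integrableOn_Ioi_rpow (-(3 / 2)) ((integrableOn_congr_fun (fun x hx => ?_)
      measurableSet_Ioi).1 (h.const_mul 2))
    have hx0 : (0 : ℝ) < x := hx
    have : √(4 * x ^ 3) = 2 * x ^ (3 / 2 : ℝ) := by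
      rw [sqrt_eq_iff_mul_self_eq (by positivity) (by positivity), mul_mul_mul_comm,
        ← rpow_add hx0]
      norm_num
    rw [this, rpow_neg hx0.le]
    field_simp

end Pool.Agent.ELL
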