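import Pool.Agent.MP_cbf1af_ag.ell.Stmt
import Pool.Agent.MP_cbf1af_ag.ell.Scale

/-! The square and the hexagonal lattice with algebraic invariants. -/

namespace Pool.Agent.ELL

open Complex PeriodPair

namespace InvP

/-- the lattice with basis `a, τ a` -/
noncomputable def pp (τ a : ℂ) (hτ : τ.im ≠ 0) (ha : a ≠ 0) : PeriodPair :=
  ⟨a, τ * a, LinearIndependent.pair_iff.2 fun s t h => by
    have h1 : (s : ℂ) + t * τ = 0 :=
      mul_right_cancel₀ ha (by simp only [real_smul] at h; linear_combination h)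
    have h2 : t = 0 := by simpa [hτ] using congrArg im h1
    exact ⟨by simpa [h2] using h1, h2⟩⟩

variable {τ a : ℂ} {hτ : τ.im ≠ 0} {ha : a ≠ 0}

theorem mem {z : ℂ} : z ∈ (pp τ a hτ ha).lattice ↔ ∃ m n : ℤ, m * a + n * (τ * a) = z :=
  mem_lattice

theorem scl {b : ℂ} (hb : b ≠ 0) {c : ℂ} {hc : c ≠ 0} (h : c = b * a) (n : ℕ) :
    b ^ n * (pp τ c hτ hc).G n = (pp τ a hτ ha).G n :=
  G_scale (fun z => by
    simp only [mem, h]
    exact exists₂_congr fun m n => ⟨fun h => by rw [← h]; ring, fun h =>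
      mul_left_cancel₀ hb (by rw [← h]; ring)⟩) n

theorem unit {s : ℤ} (h : τ ^ 2 = s * τ - 1) {n : ℕ} (hn : τ ^ n ≠ 1) :
    (pp τ a hτ ha).G n = 0 := by
  have h0 : τ ≠ 0 := fun h => hτ (by simp [h])
  have h1 := G_scale (L := pp τ a hτ ha) (L' := pp τ a hτ ha) (α := τ) (fun z => by
    simp only [mem]
    refine ⟨fun ⟨m, n, e⟩ => ⟨-n, m + s * n, ?_⟩, fun ⟨m, n, e⟩ => ⟨n + s * m, -m, ?_⟩⟩
    · push_cast
      linear_combination τ * e - n * a * h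
    · push_cast
      exact mul_left_cancel₀ h0 (by linear_combination e - m * a * h)) n
  exact (mul_eq_zero.1 (show (τ ^ n - 1) * _ = 0 by linear_combination h1)).resolve_left
    (sub_ne_zero.2 hn)

theorem fin {ω C q e : ℝ} (c2 c3 : ℚ) (h1 : IsAlgebraic ℚ a) (h2 : IsAlgebraic ℚ ω)
    (h3 : IsAlgebraic ℚ q) (hω : 0 < ω) (he : 0 < e) (h4 : √e * (ω / 2) = q * C)
    (h5 : (pp τ a hτ ha).g₂ = c2 * e ^ 2) (h6 : (pp τ a hτ ha).g₃ = c3 * e ^ 3) :
    ∃ (L : PeriodPair) (q : ℂ), IsAlgebraic ℚ L.g₂ ∧ IsAlgebraic ℚ L.g₃ ∧ IsAlgebraic ℚ q ∧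
      L.ω₂ = τ * L.ω₁ ∧ L.ω₁ = q * (C : ℂ) := by
  have hb : ((√e : ℝ) : ℂ) ≠ 0 := ofReal_ne_zero.2 (Real.sqrt_pos.2 he).ne'
  have hs : ((√e : ℝ) : ℂ) ^ 2 = e := by rw [← ofReal_pow, Real.sq_sqrt he.le]
  have he' : (e : ℂ) ≠ 0 := ofReal_ne_zero.2 he.ne'
  have hω' : (ω : ℂ) ≠ 0 := ofReal_ne_zero.2 hω.ne'
  have s4 := scl (hτ := hτ) (ha := ha) hb (hc := mul_ne_zero hb ha) rfl 4
  have s6 := scl (hτ := hτ) (ha := ha) hb (hc := mul_ne_zero hb ha) rfl 6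
  rw [show (4 : ℕ) = 2 * 2 from rfl, pow_mul, hs] at s4
  rw [show (6 : ℕ) = 2 * 3 from rfl, pow_mul, hs] at s6
  refine ⟨pp τ _ hτ (mul_ne_zero hb ha), a * ((2 : ℚ) * (q * (ω : ℂ)⁻¹)), ?_, ?_,
    h1.mul ((isAlgebraic_ratCast ℚ 2).mul (h3.algebraMap.mul h2.algebraMap.inv)), rfl, ?_⟩
  · rw [show g₂ _ = (c2 : ℂ) from mul_left_cancel₀ (pow_ne_zero 2 he') (by
      rw [g₂] at h5 ⊢; linear_combination 60 * s4 + h5)]
    exact isAlgebraic_ratCast ℚ c2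
  · rw [show g₃ _ = (c3 : ℂ) from mul_left_cancel₀ (pow_ne_zero 3 he') (by
      rw [g₃] at h6 ⊢; linear_combination 140 * s6 + h6)]
    exact isAlgebraic_ratCast ℚ c3
  · have h7 : ((√e : ℝ) : ℂ) * (ω / 2) = q * C := by exact_mod_cast congrArg ofReal h4
    change (√e : ℝ) * a = _
    push_cast
    field_simp
    linear_combination 2 * h7

variable (hR : RealpStmt) (hB : BetaStmt) {ω : ℝ} (hω : 0 < ω) (h1 : IsAlgebraic ℚ a)
  (h2 : IsAlgebraic ℚ ω)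

include hR hB hω h1 h2

theorem sq {hτ : I.im ≠ 0}
    (hc : ∀ z ∈ (pp I a hτ ha).lattice, (starRingEnd ℂ) z ∈ (pp I a hτ ha).lattice)
    (hr : ∀ x : ℝ, (x : ℂ) ∈ (pp I a hτ ha).lattice ↔ ∃ m : ℤ, x = m * ω) :
    ((pp I a hτ ha).g₂).re < 0 ∨
    ∃ (L : PeriodPair) (q : ℂ), IsAlgebraic ℚ L.g₂ ∧ IsAlgebraic ℚ L.g₃ ∧ IsAlgebraic ℚ q ∧
      L.ω₂ = I * L.ω₁ ∧ L.ω₁ = q * ((Real.Gamma (1 / 4) ^ 2 / √Real.pi : ℝ) : ℂ) := by
  obtain ⟨g2, g3, e, e2, e3, h3, h4, h5, h6⟩ := hR _ ω hω hc hr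
  obtain ⟨⟨q, hq, h7⟩, -, h8⟩ := hB
  have h9 : (pp I a hτ ha).g₃ = 0 := by
    rw [g₃, unit (s := 0) (by simp) (by rw [show I ^ 6 = -1 by simp [pow_succ]]; norm_num),
      mul_zero]
  obtain rfl : g3 = 0 := by exact_mod_cast e3.symm.trans h9
  rcases lt_trichotomy e 0 with he | rfl | he
  · simpa using h4 0 he
  · refine .inl ?_
    rw [e2, ofReal_re]
    by_contra! hg
    rcases hg.eq_or_lt with rfl | hg
    · exact h8 (by simpa using h5)
    · have := h4 _ (show 0 < √g2 / 2 by positivity)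
      have h0 := Real.sq_sqrt hg.le
      have : 4 * (√g2 / 2) ^ 3 - g2 * (√g2 / 2) - 0 = 0 := by
        linear_combination √g2 / 2 * h0
      linarith
  · obtain rfl : g2 = 4 * e ^ 2 := mul_right_cancel₀ he.ne' (by linear_combination -h3)
    refine .inr (fin 4 0 h1 h2 hq hω he ?_ (by simpa using e2) (by simpa using h9))
    rw [← h7 e he, ← h6]
    simp

theorem hx (h : τ ^ 2 = (-1 : ℤ) * τ - 1)
    (hc : ∀ z ∈ (pp τ a hτ ha).lattice, (starRingEnd ℂ) z ∈ (pp τ a hτ ha).lattice)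
    (hr : ∀ x : ℝ, (x : ℂ) ∈ (pp τ a hτ ha).lattice ↔ ∃ m : ℤ, x = m * ω) :
    ((pp τ a hτ ha).g₃).re < 0 ∨
    ∃ (L : PeriodPair) (q : ℂ), IsAlgebraic ℚ L.g₂ ∧ IsAlgebraic ℚ L.g₃ ∧ IsAlgebraic ℚ q ∧
      L.ω₂ = τ * L.ω₁ ∧ L.ω₁ = q * ((Real.Gamma (1 / 3) ^ 3 / Real.pi : ℝ) : ℂ) := by
  obtain ⟨g2, g3, e, e2, e3, h3, h4, h5, h6⟩ := hR _ ω hω hc hr
  obtain ⟨-, ⟨q, hq, h7⟩, h8⟩ := hB
  have h9 : (pp τ a hτ ha).g₂ = 0 := by
    rw [g₂, unit h (fun h0 => hτ ?_), mul_zero]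
    rw [show τ = 1 by push_cast at h; linear_combination h0 - (τ ^ 2 - τ) * h, one_im]
  obtain rfl : g2 = 0 := by exact_mod_cast e2.symm.trans h9
  obtain rfl : g3 = 4 * e ^ 3 := by linear_combination -h3
  rcases lt_trichotomy e 0 with he | rfl | he
  · refine .inl ?_
    rw [e3, ofReal_re]
    linarith [Odd.pow_neg (show Odd 3 by decide) he]
  · exact (h8 (by simpa using h5)).elim
  · refine .inr (fin 0 4 h1 h2 hq hω he ?_ (by simpa using h9) (by simpa using e3))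
    rw [← h7 e he, ← h6]
    simp

end InvP

open InvP

theorem inv (hR : RealpStmt) (hB : BetaStmt) : InvStmt := by
  have aI : IsAlgebraic ℚ I := .of_pow two_pos (by rw [I_sq]; exact isAlgebraic_one.neg)
  have hI : I.im ≠ 0 := by simp
  constructor
  · have n1 : (1 + I) ≠ 0 := fun h => by simpa using congrArg re h
    refine (sq (ha := one_ne_zero) (hτ := hI) hR hB one_pos isAlgebraic_one isAlgebraic_one
      ?_ ?_).elim (fun h1 => (sq (ha := n1) (hτ := hI) hR hB two_pos (isAlgebraic_one.add aI)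
        (by simpa using isAlgebraic_natCast (R := ℚ) (A := ℝ) 2) ?_ ?_).elim (fun h2 => ?_) id) id
    · simp only [mem]
      rintro _ ⟨m, n, rfl⟩
      exact ⟨m, -n, by simp⟩
    · simp only [mem]
      exact fun x => ⟨fun ⟨m, n, h⟩ => ⟨m, by simpa using (congrArg re h).symm⟩,
        fun ⟨m, h⟩ => ⟨m, 0, by simp [h]⟩⟩
    · simp only [mem]
      rintro _ ⟨m, n, rfl⟩
      exact ⟨-n, -m, by simp [Complex.ext_iff]; constructor <;> ring⟩
    · simp only [mem]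
      refine fun x => ⟨fun ⟨m, n, h⟩ => ⟨m, ?_⟩, fun ⟨m, h⟩ => ⟨m, -m, ?_⟩⟩
      · simp [Complex.ext_iff] at h
        linarith [h.1, h.2]
      · simp [Complex.ext_iff, h]
        ring
    · have h3 := congrArg re (scl (hτ := hI) (ha := one_ne_zero) n1 (hc := n1) (mul_one _).symm 4)
      rw [show (1 + I) ^ 4 = -4 by simp [Complex.ext_iff, pow_succ]; norm_num] at h3
      simp [g₂] at h1 h2 h3
      linarith
  · have s3 : √3 * √3 = 3 := Real.mul_self_sqrt (by norm_num)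
    have p3 : (0 : ℝ) < √3 := by positivity
    have hτ : ((-1 + (√3 : ℝ) * I) / 2).im ≠ 0 := by simp
    have hq : ((-1 + (√3 : ℝ) * I) / 2) ^ 2 = (-1 : ℤ) * ((-1 + (√3 : ℝ) * I) / 2) - 1 := by
      simp [Complex.ext_iff, pow_succ]
      constructor <;> linarith
    refine (hx (ha := one_ne_zero) (hτ := hτ) hR hB one_pos isAlgebraic_one isAlgebraic_one hq
      ?_ ?_).elim (fun h1 => (hx (ha := I_ne_zero) (hτ := hτ) hR hB p3 aI
        (.of_pow two_pos (by simpa using isAlgebraic_natCast (R := ℚ) (A := ℝ) 3)) hq ?_ ?_).elim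
          (fun h2 => ?_) id) id
    · simp only [mem]
      rintro _ ⟨m, n, rfl⟩
      exact ⟨m - n, -n, by simp [Complex.ext_iff, map_ofNat]; constructor <;> ring⟩
    · simp only [mem]
      refine fun x => ⟨fun ⟨m, n, h⟩ => ⟨m, ?_⟩, fun ⟨m, h⟩ => ⟨m, 0, by simp [h]⟩⟩
      simp [Complex.ext_iff] at h
      simp [← h.1, h.2]
    · simp only [mem]
      rintro _ ⟨m, n, rfl⟩
      exact ⟨n - m, n, by simp [Complex.ext_iff, map_ofNat]; constructor <;> ring⟩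
    · simp only [mem]
      refine fun x => ⟨fun ⟨m, n, h⟩ => ⟨-m, ?_⟩, fun ⟨m, h⟩ => ⟨-m, -2 * m, ?_⟩⟩
      · simp [Complex.ext_iff] at h
        push_cast
        linear_combination -h.1 + √3 * h.2
      · simp [Complex.ext_iff, h]
        constructor <;> ring
    · have h3 := congrArg re
        (scl (hτ := hτ) (ha := one_ne_zero) I_ne_zero (hc := I_ne_zero) (mul_one _).symm 6)
      rw [show I ^ 6 = -1 by simp [pow_succ]] at h3
      simp [g₃] at h1 h2 h3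
      linarith

end Pool.Agent.ELL
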