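import Mathlib

/-! The addition law of a plane cubic in bidegree `(2, 2)`. -/

namespace Pool.Agent.ELL

/-- a monomial of bidegree `(2, 2)` with coefficient `c a ^ m b ^ n` -/
abbrev Tm : Type := ℚ × ℕ × ℕ × Fin 3 × Fin 3 × Fin 3 × Fin 3

/-- the value of a list of monomials -/
noncomputable def ev (a b : ℂ) (X Y : Fin 3 → ℂ) : List Tm → ℂ
  | [] => 0
  | (c, m, n, p, q, r, s) :: l => c * a ^ m * b ^ n * (X p * X q * (Y r * Y s)) + ev a b X Y l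

theorem ev_ex {a b : ℂ} (ha : IsAlgebraic ℚ a) (hb : IsAlgebraic ℚ b) (l : List Tm) :
    ∃ c : Fin 3 → Fin 3 → Fin 3 → Fin 3 → ℂ, (∀ p q r s, IsAlgebraic ℚ (c p q r s)) ∧
      ∀ X Y, ev a b X Y l = ∑ p, ∑ q, ∑ r, ∑ s, c p q r s * (X p * X q * (Y r * Y s)) := by
  induction l with
  | nil => exact ⟨0, fun _ _ _ _ => isAlgebraic_zero, fun X Y => by simp [ev]⟩
  | cons t l ih =>
    obtain ⟨c, m, n, p, q, r, s⟩ := t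
    obtain ⟨e, h1, h2⟩ := ih
    refine ⟨fun p' q' r' s' => (if p' = p ∧ q' = q ∧ r' = r ∧ s' = s then c * a ^ m * b ^ n else 0)
      + e p' q' r' s', fun p' q' r' s' => .add ?_ (h1 _ _ _ _), fun X Y => ?_⟩
    · split_ifs
      exacts [((isAlgebraic_ratCast ℚ c).mul (ha.pow m)).mul (hb.pow n), isAlgebraic_zero]
    · simp [ev, h2, add_mul, Finset.sum_add_distrib, ite_and]

theorem ev_smul (a b s t : ℂ) (X Y : Fin 3 → ℂ) (l : List Tm) :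
    ev a b (fun i => s * X i) (fun i => t * Y i) l = s ^ 2 * t ^ 2 * ev a b X Y l := by
  induction l with
  | nil => simp [ev]
  | cons t l ih => rw [ev, ev, ih]; ring

/-- the coefficients of the addition law -/
def tab : Fin 3 → Fin 3 → List Tm :=
  ![![[(-3, 1, 0, 1, 1, 1, 1), (-9, 0, 1, 1, 1, 1, 2), (-1 / 4, 2, 0, 1, 1, 2, 2),
    (-9, 0, 1, 1, 2, 1, 1), (-1, 2, 0, 1, 2, 1, 2), (-3 / 4, 1, 1, 1, 2, 2, 2),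
    (1 / 4, 0, 0, 0, 0, 0, 0), (-1 / 4, 2, 0, 2, 2, 1, 1), (-3 / 4, 1, 1, 2, 2, 1, 2),
    (1 / 16, 3, 0, 2, 2, 2, 2), (-9 / 4, 0, 2, 2, 2, 2, 2)], [(-1 / 4, 1, 0, 1, 1, 0, 2),
    (1 / 2, 1, 0, 0, 1, 1, 2), (1 / 4, 0, 0, 0, 1, 0, 0), (3 / 4, 0, 1, 0, 1, 2, 2),
    (-1 / 2, 1, 0, 1, 2, 0, 1), (-3 / 2, 0, 1, 1, 2, 0, 2), (-1 / 4, 0, 0, 0, 0, 0, 1),
    (1 / 4, 1, 0, 0, 2, 1, 1), (3 / 2, 0, 1, 0, 2, 1, 2), (1 / 16, 2, 0, 0, 2, 2, 2),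
    (-3 / 4, 0, 1, 2, 2, 0, 1), (-1 / 16, 2, 0, 2, 2, 0, 2)], [(-3, 0, 0, 1, 1, 0, 1),
    (3, 0, 0, 0, 1, 1, 1), (-1 / 4, 1, 0, 0, 1, 2, 2), (1 / 2, 1, 0, 1, 2, 0, 2),
    (-1 / 4, 0, 0, 0, 0, 0, 2), (-1 / 2, 1, 0, 0, 2, 1, 2), (1 / 4, 0, 0, 0, 2, 0, 0),
    (-3 / 4, 0, 1, 0, 2, 2, 2), (1 / 4, 1, 0, 2, 2, 0, 1), (3 / 4, 0, 1, 2, 2, 0, 2)]],
    ![[(1 / 4, 1, 0, 1, 1, 0, 2), (1 / 2, 1, 0, 0, 1, 1, 2), (1 / 4, 0, 0, 0, 1, 0, 0),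
    (3 / 4, 0, 1, 0, 1, 2, 2), (1 / 2, 1, 0, 1, 2, 0, 1), (3 / 2, 0, 1, 1, 2, 0, 2),
    (1 / 4, 0, 0, 0, 0, 0, 1), (1 / 4, 1, 0, 0, 2, 1, 1), (3 / 2, 0, 1, 0, 2, 1, 2),
    (1 / 16, 2, 0, 0, 2, 2, 2), (3 / 4, 0, 1, 2, 2, 0, 1), (1 / 16, 2, 0, 2, 2, 0, 2)],
    [(-1 / 4, 1, 0, 1, 1, 1, 2), (1 / 4, 0, 0, 1, 1, 0, 0), (-3 / 4, 0, 1, 1, 1, 2, 2),
    (1 / 4, 1, 0, 1, 2, 1, 1), (-1 / 16, 2, 0, 1, 2, 2, 2), (-1 / 4, 0, 0, 0, 0, 1, 1),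
    (3 / 4, 0, 1, 2, 2, 1, 1), (1 / 16, 2, 0, 2, 2, 1, 2)], [(1 / 4, 1, 0, 1, 1, 2, 2),
    (1 / 2, 0, 0, 0, 1, 0, 2), (1 / 4, 0, 0, 1, 2, 0, 0), (3 / 4, 0, 1, 1, 2, 2, 2),
    (-1 / 4, 0, 0, 0, 0, 1, 2), (-1 / 2, 0, 0, 0, 2, 0, 1), (-1 / 4, 1, 0, 2, 2, 1, 1),
    (-3 / 4, 0, 1, 2, 2, 1, 2)]], ![[(3, 0, 0, 1, 1, 0, 1), (3, 0, 0, 0, 1, 1, 1),
    (-1 / 4, 1, 0, 0, 1, 2, 2), (-1 / 2, 1, 0, 1, 2, 0, 2), (1 / 4, 0, 0, 0, 0, 0, 2),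
    (-1 / 2, 1, 0, 0, 2, 1, 2), (1 / 4, 0, 0, 0, 2, 0, 0), (-3 / 4, 0, 1, 0, 2, 2, 2),
    (-1 / 4, 1, 0, 2, 2, 0, 1), (-3 / 4, 0, 1, 2, 2, 0, 2)], [(1 / 4, 1, 0, 1, 1, 2, 2),
    (-1 / 2, 0, 0, 0, 1, 0, 2), (1 / 4, 0, 0, 1, 2, 0, 0), (3 / 4, 0, 1, 1, 2, 2, 2),
    (-1 / 4, 0, 0, 0, 0, 1, 2), (1 / 2, 0, 0, 0, 2, 0, 1), (-1 / 4, 1, 0, 2, 2, 1, 1),
    (-3 / 4, 0, 1, 2, 2, 1, 2)], [(3, 0, 0, 1, 1, 1, 2), (-3, 0, 0, 1, 2, 1, 1),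
    (-1 / 4, 1, 0, 1, 2, 2, 2), (-1 / 4, 0, 0, 0, 0, 2, 2), (1 / 4, 1, 0, 2, 2, 1, 2),
    (1 / 4, 0, 0, 2, 2, 0, 0)]]]

theorem law_alg {a b x y u v A A' B B' : ℂ} (hD : x - u ≠ 0) (e1 : y ^ 2 = 4 * x ^ 3 - a * x - b)
    (e2 : v ^ 2 = 4 * u ^ 3 - a * u - b)
    (p1 : (x - u) ^ 2 * A = x * u * (x + u) - a * (x + u) / 4 - b / 2 - y * v / 2)
    (p0 : (x - u) ^ 3 * A' = (y * (u * (2 * x + u) - a / 4) - (6 * x ^ 2 - a / 2) * v / 2) * (x -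
      u) - 2 * y * (x * u * (x + u) - a * (x + u) / 4 - b / 2 - y * v / 2))
    (m1 : (x - u) ^ 2 * B = x * u * (x + u) - a * (x + u) / 4 - b / 2 - y * -v / 2)
    (m0 : (x - u) ^ 3 * B' = (y * (u * (2 * x + u) - a / 4) - (6 * x ^ 2 - a / 2) * -v / 2) * (x -
      u) - 2 * y * (x * u * (x + u) - a * (x + u) / 4 - b / 2 - y * -v / 2))
    (i j : Fin 3) : (u - x) ^ 3 * (![A', A, 1] i * ![B', B, 1] j) =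
      ev a b ![y, x, 1] ![v, u, 1] (tab i j) := by
  fin_cases i <;> fin_cases j <;> simp [tab, ev]
  · refine mul_left_cancel₀ (pow_ne_zero 3 hD) ?_
    linear_combination -congrArg₂ (· * ·) p0 m0 - (9 * x ^ 3 * v ^ 2 / 4 + 9 * x ^ 2 * u ^ 4 - 3 *
      x ^ 2 * u ^ 2 * a / 2 - 27 * x ^ 2 * u * v ^ 2 / 4 + x ^ 2 * a ^ 2 / 16 + 6 * x * u ^ 5 - 5 *
      x * u ^ 3 * a + 3 * x * u ^ 2 * v ^ 2 / 4 - 6 * x * u ^ 2 * b + 3 * x * u * a ^ 2 / 8 + x * v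
      ^ 2 * a / 2 + x * a * b / 2 - y ^ 2 * v ^ 2 + u ^ 6 - 3 * u ^ 4 * a / 2 - u ^ 3 * v ^ 2 / 4 -
      2 * u ^ 3 * b + 9 * u ^ 2 * a ^ 2 / 16 + u * v ^ 2 * a / 2 + 3 * u * a * b / 2 + v ^ 2 * b +
      b ^ 2) * e1 - (-9 * x ^ 5 * u - 6 * x ^ 4 * u ^ 2 + 5 * x ^ 4 * a / 4 - x ^ 3 * u ^ 3 + 23 *
      x ^ 3 * u * a / 4 + 7 * x ^ 3 * b / 4 + 3 * x ^ 2 * u ^ 2 * a / 4 + 27 * x ^ 2 * u * b / 4 -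
      9 * x ^ 2 * a ^ 2 / 16 + x * u ^ 3 * a / 4 - 3 * x * u ^ 2 * b / 4 - 3 * x * u * a ^ 2 / 8 -
      3 * x * a * b / 2 + u ^ 3 * b / 4 - u ^ 2 * a ^ 2 / 16 - u * a * b / 2 - b ^ 2) * e2
  · refine mul_left_cancel₀ (pow_ne_zero 2 hD) ?_
    linear_combination -congrArg₂ (· * ·) p0 m1 - (3 * x ^ 2 * u * v / 4 - x * v * a / 8 + y * v ^
      2 / 2 - 3 * u ^ 3 * v / 4 + u * v * a / 8) * e1 - (3 * x ^ 3 * y / 4 + x ^ 2 * y * u + x * y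
      * u ^ 2 / 4 - 3 * x * y * a / 8 - y * u * a / 8 - y * b / 2) * e2
  · linear_combination -p0 - (3 * v / 4) * e1 - (y / 4) * e2
  · refine mul_left_cancel₀ (pow_ne_zero 2 hD) ?_
    linear_combination -congrArg₂ (· * ·) p1 m0 - (-3 * x ^ 2 * u * v / 4 + x * v * a / 8 + y * v ^
      2 / 2 + 3 * u ^ 3 * v / 4 - u * v * a / 8) * e1 - (3 * x ^ 3 * y / 4 + x ^ 2 * y * u + x * y
      * u ^ 2 / 4 - 3 * x * y * a / 8 - y * u * a / 8 - y * b / 2) * e2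
  · refine mul_left_cancel₀ (pow_ne_zero 1 hD) ?_
    linear_combination -congrArg₂ (· * ·) p1 m1 - (-x * u ^ 2 / 4 + u ^ 3 / 4 - v ^ 2 / 4) * e1 -
      (-3 * x ^ 3 / 4 - x ^ 2 * u / 4 + x * a / 4 + b / 4) * e2
  · linear_combination -(x - u) * p1 - (-u / 4) * e1 - (x / 4) * e2
  · linear_combination -m0 - (-3 * v / 4) * e1 - (y / 4) * e2
  · linear_combination -(x - u) * m1 - (-u / 4) * e1 - (x / 4) * e2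
  · linear_combination  - (-1 / 4) * e1 - (1 / 4) * e2

end Pool.Agent.ELL
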