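import Mathlib.Algebra.EuclideanDomain.Defs
import Mathlib.Algebra.EuclideanDomain.Field
import Mathlib.Algebra.CharP.IntermediateField
import Mathlib.RingTheory.Flat.TorsionFree
import Mathlib.Algebra.Order.Ring.Star
import Mathlib.FieldTheory.Galois.Infinite
import Mathlib.FieldTheory.IsSepClosed
import Mathlib.Analysis.Complex.Polynomial.Basic
import Mathlib.Analysis.CStarAlgebra.Classes
import Mathlib.RingTheory.SimpleRing.Principal
import Mathlib.NumberTheory.Transcendental.Lindemann.AnalyticalPart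
import Mathlib.Order.CompletePartialOrder
import Mathlib.RingTheory.Henselian
import Mathlib.RingTheory.RegularLocalRing.Defs

-- ======== part 0: formerly Pool.Agent.MP_cbf1af_ag.ell.Mat
section MrgPart0

/-! Transcendence degrees through the algebraic matroid. -/

namespace Pool.Agent.ELL

open AlgebraicIndependent Set

variable (F : Type) {E : Type} [Field F] [Field E] [Algebra F E]

/-- the elements algebraic over the field generated by `s` -/
def cl (s : Set E) : IntermediateField F E :=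
  ((Subalgebra.algebraicClosure (Algebra.adjoin F s) E).restrictScalars F).toIntermediateField
    fun _ hz => IsAlgebraic.inv hz

/-- the transcendence degree of the field generated by `s` -/
noncomputable def rk (s : Set E) : ℕ∞ := (matroid F E).eRk s

variable {F} {s t : Set E} {z : E}

theorem cl_eq : (cl F s : Set E) = (matroid F E).closure s := matroid_closure_eq.symm

theorem mem_cl : z ∈ cl F s ↔ z ∈ (matroid F E).closure s := by
  rw [← cl_eq, SetLike.mem_coe]

theorem sub_cl (h : z ∈ s) : z ∈ cl F s := mem_cl.2 ((matroid F E).subset_closure s (by simp) h)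

theorem alg_cl (h : IsAlgebraic F z) : z ∈ cl F s :=
  h.extendScalars (algebraMap F (Algebra.adjoin F s)).injective

theorem pow_cl {n : ℕ} (hn : 0 < n) (h : z ^ n ∈ cl F s) : z ∈ cl F s := IsAlgebraic.of_pow hn h

theorem cl_le (h : ∀ z ∈ s, z ∈ cl F t) (hz : z ∈ cl F s) : z ∈ cl F t :=
  mem_cl.2 ((matroid F E).closure_subset_closure_of_subset_closure
    (fun z hz => mem_cl.1 (h z hz)) (mem_cl.1 hz))

theorem rk_le (h : ∀ z ∈ s, z ∈ cl F t) : rk F s ≤ rk F t :=
  ((matroid F E).eRk_mono fun z hz => mem_cl.1 (h z hz)).trans_eq ((matroid F E).eRk_closure_eq t)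

theorem rk_insert (h : z ∉ cl F s) : rk F (insert z s) = rk F s + 1 :=
  Matroid.eRk_insert_eq_add_one ⟨trivial, mt mem_cl.2 h⟩

theorem alg_of_cl (h : ∀ z ∈ s, IsAlgebraic F z) (hz : z ∈ cl F s) : IsAlgebraic F z := by
  have : Algebra.IsAlgebraic F (Algebra.adjoin F (∅ : Set E)) :=
    Algebra.adjoin_empty F E ▸ (Subalgebra.isAlgebraic_iff _).1 fun x hx => by
      obtain ⟨y, rfl⟩ := Algebra.mem_bot.1 hx
      exact isAlgebraic_algebraMap y
  exact IsAlgebraic.restrictScalars F (cl_le (t := ∅) (fun z hz => alg_cl (h z hz)) hz)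

/-- an element algebraic over two fields which are free over a third one -/
theorem modular {s₀ s₁ s₂ : Set E} {n₀ n : ℕ} (h₁ : ∀ x ∈ s₀, x ∈ cl F s₁)
    (h₂ : ∀ x ∈ s₀, x ∈ cl F s₂) (h₀ : rk F s₀ = n₀) (h : rk F (s₁ ∪ s₂) = n)
    (hle : rk F s₁ + rk F s₂ ≤ n₀ + n) (z₁ : z ∈ cl F s₁) (z₂ : z ∈ cl F s₂) : z ∈ cl F s₀ := by
  by_contra hz
  have h3 := (matroid F E).eRk_inter_add_eRk_union_le (cl F s₁) (cl F s₂)
  have h4 : rk F (insert z s₀) ≤ rk F (cl F s₁ ∩ cl F s₂) :=
    (matroid F E).eRk_mono (insert_subset ⟨z₁, z₂⟩ fun x hx => ⟨h₁ x hx, h₂ x hx⟩)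
  have h5 : rk F (s₁ ∪ s₂) ≤ rk F (cl F s₁ ∪ cl F s₂) :=
    (matroid F E).eRk_mono (union_subset_union (fun _ => sub_cl) fun _ => sub_cl)
  have h6 := (add_le_add h4 h5).trans (h3.trans ((add_le_add (rk_le fun _ => id)
    (rk_le fun _ => id)).trans hle))
  rw [rk_insert hz, h₀, h] at h6
  norm_cast at h6
  omega

theorem trdeg_adjoin (s : Set E) :
    Algebra.trdeg F (IntermediateField.adjoin F s) = (matroid F E).cRk s := by
  obtain ⟨I, hI⟩ := (matroid F E).exists_isBasis s
  set K := IntermediateField.adjoin F s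
  let y : I → K := fun i => ⟨i, IntermediateField.subset_adjoin F s (hI.subset i.2)⟩
  have h2 : (Algebra.adjoin F (range y)).map K.val = Algebra.adjoin F I := by
    rw [AlgHom.map_adjoin, ← range_comp]
    exact congrArg _ Subtype.range_coe
  let e := ((Algebra.adjoin F (range y)).equivMapOfInjective K.val K.val.injective).trans
    (Subalgebra.equivOfEq _ _ h2)
  have h3 : K ≤ cl F I := IntermediateField.adjoin_le_iff.2 fun z hz =>
    mem_cl.2 (hI.subset_closure hz)
  have : Algebra.IsAlgebraic (Algebra.adjoin F (range y)) K := ⟨fun z =>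
    .of_ringHom_of_comp_eq e.toRingHom K.val.toRingHom (h3 z.2) e.surjective
      K.val.injective (RingHom.ext fun _ => rfl)⟩
  rw [← hI.cardinalMk_eq_cRk]
  exact ((AlgebraicIndependent.of_comp (x := y) K.val
    hI.indep).isTranscendenceBasis_iff_isAlgebraic.2 this).cardinalMk_eq_trdeg.symm

theorem trdeg_iff {n : ℕ} : Algebra.trdeg F (IntermediateField.adjoin F s) = n ↔ rk F s = n := by
  rw [trdeg_adjoin, rk, ← Matroid.toENat_cRk_eq, Cardinal.toENat_eq_natCast]

theorem trdeg_rat {s : Set ℂ} {n : ℕ} :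
    Algebra.trdeg ℚ (IntermediateField.adjoin ℚ s) = n ↔ rk ℚ s = n := trdeg_iff

end Pool.Agent.ELL

end MrgPart0

-- ======== part 1: formerly Pool.Agent.MP_cbf1af_ag.ell.Pi
section MrgPart1

/-! The theorem of Lindemann. -/

namespace Pool.Agent.ELL

open Complex Polynomial Finset Filter

theorem int_aeval {K : Type} [Field K] {d : ℤ} {b : K} (h : IsIntegral ℤ (d * b)) {g : ℤ[X]}
    {M : ℕ} (hg : g.natDegree ≤ M) : IsIntegral ℤ (d ^ M * aeval b g) := by
  rw [aeval_eq_sum_range' (Nat.lt_succ_of_le hg), mul_sum]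
  refine IsIntegral.sum _ fun i hi => ?_
  obtain ⟨j, rfl⟩ := Nat.exists_eq_add_of_le (Nat.le_of_lt_succ (mem_range.1 hi))
  rw [mul_smul_comm, pow_add, mul_right_comm, ← mul_pow]
  exact ((h.pow i).mul ((isIntegral_intCast d).pow j)).zsmul _

theorem exp_ne {K : Type} [Field K] [CharZero K] [IsGalois ℚ K] (φ : K →+* ℂ) (θ : K) :
    exp (φ θ) ≠ -1 := fun h => by
  classical
  have hi := Algebra.IsIntegral.isIntegral (R := ℚ) θ
  let ι := (minpoly ℚ θ).rootSet K
  let β : Finset ι → K := fun S => ∑ i ∈ S, (i : K)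
  let A : Finset (Finset ι) := {S | β S ≠ 0}
  let k := #({S | ¬β S ≠ 0} : Finset (Finset ι))
  have hk : 0 < k := card_pos.2 ⟨∅, by simp [β]⟩
  have h1 : ∑ S ∈ A, exp (φ (β S)) = -k := by
    have h2 := prod_one_add (f := fun i : ι => exp (φ i)) univ
    rw [prod_eq_zero (mem_univ (⟨θ, (mem_rootSet_of_ne (minpoly.ne_zero hi)).2
      (minpoly.aeval ℚ θ)⟩ : ι)) (by simp [h]), powerset_univ,
      ← sum_filter_add_sum_filter_not _ fun S => β S ≠ 0] at h2
    have h3 : ∀ S : Finset ι, ∏ i ∈ S, exp (φ i) = exp (φ (β S)) := fun S => by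
      rw [map_sum, exp_sum]
    simp only [h3] at h2
    rw [sum_congr rfl (g := fun _ => (1 : ℂ)) (s₂ := {S | ¬β S ≠ 0}) fun S hS => by
      rw [not_not.1 (mem_filter.1 hS).2, map_zero, exp_zero], sum_const, nsmul_one] at h2
    linear_combination -h2
  have ha : ∀ S, IsAlgebraic ℤ (β S) := fun S =>
    (IsFractionRing.isAlgebraic_iff ℤ ℚ K).2 (Algebra.IsAlgebraic.isAlgebraic _)
  choose q hq hq' using fun S : A => (ha S).exists_nonzero_coeff_and_aeval_eq_zero
    (mem_nonZeroDivisors_of_ne_zero (mem_filter.1 S.2).2)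
  choose e he he' using fun S => (ha S).exists_integral_multiple
  have hf : (∏ S, q S).eval 0 ≠ 0 := by
    rw [eval_prod]
    exact prod_ne_zero_iff.2 fun S _ => coeff_zero_eq_eval_zero (q S) ▸ hq S
  obtain ⟨c, hc⟩ := LindemannWeierstrass.exp_polynomial_approx _ hf
  set f := ∏ S, q S with hf'
  set d := ∏ S, e S with hd
  have hd0 : d ≠ 0 := prod_ne_zero_iff.2 fun S _ => he S
  have h4 := ((FloorSemiring.tendsto_pow_div_factorial_atTop (|(d : ℝ)| ^ f.natDegree * c)).const_mul
    (#A * (|(d : ℝ)| ^ f.natDegree * c))).eventually_lt_const (by simp : _ < (1 : ℝ))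
  obtain ⟨B, hB⟩ := eventually_atTop.1 h4
  obtain ⟨p, hp, pp⟩ := Nat.exists_infinite_primes (B + (f.eval 0).natAbs + d.natAbs + k + 1)
  obtain ⟨n, hn, g, hg, h5⟩ := hc p (by omega) pp
  obtain ⟨r, hr⟩ := (InfiniteGalois.mem_range_algebraMap_iff_fixed (k := ℚ)
    ((d : K) ^ (p * f.natDegree) * ∑ S ∈ A, aeval (β S) g)).2 fun τ => by
      let e : ι ≃ ι := τ.toEquiv.subtypeEquiv fun x => by
        simp [ι, mem_rootSet_of_ne (minpoly.ne_zero hi), aeval_algHom_apply]
      have h6 : ∀ S, β (e.finsetCongr S) = τ (β S) := fun S => by simp [β, e]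
      rw [map_mul, map_pow, map_intCast, map_sum]
      congr 1
      refine sum_equiv e.finsetCongr (fun S => by
        simp only [A, mem_filter, mem_univ, h6, _root_.map_ne_zero]) fun S _ => ?_
      rw [h6]
      exact (aeval_algHom_apply τ.toRingHom.toIntAlgHom _ _).symm
  obtain ⟨m, rfl⟩ := (IsIntegrallyClosed.isIntegral_iff (R := ℤ) (K := ℚ) (x := r)).1 <| by
    rw [← isIntegral_algebraMap_iff (algebraMap ℚ K).injective, hr, mul_sum]
    refine IsIntegral.sum _ fun S _ => int_aeval ?_ (hg.trans (Nat.sub_le _ _))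
    rw [hd, ← mul_prod_erase _ _ (mem_univ S), Int.cast_mul, mul_right_comm, ← zsmul_eq_mul]
    exact (he' S).mul (isIntegral_intCast _)
  have h7 : ((d ^ (p * f.natDegree) * n * k + p * m : ℤ) : ℂ) = -(d ^ (p * f.natDegree) *
      ∑ S ∈ A, (n • exp (φ (β S)) - p • aeval (φ (β S)) g)) := by
    have h8 := congrArg φ hr
    have h9 : ∀ x, φ (aeval x g) = aeval (φ x) g := fun x =>
      (aeval_algHom_apply φ.toIntAlgHom x g).symm
    simp only [map_mul, map_pow, map_intCast, map_sum, eq_intCast, h9] at h8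
    simp only [sum_sub_distrib, zsmul_eq_mul, nsmul_eq_mul, ← mul_sum, h1]
    push_cast
    linear_combination p * h8
  have h8 : ‖∑ S ∈ A, (n • exp (φ (β S)) - p • aeval (φ (β S)) g)‖ ≤
      #A * (c ^ p / (p - 1).factorial) := by
    refine (norm_sum_le _ _).trans ((sum_le_card_nsmul _ _ _ fun S hS => h5 ?_).trans_eq
      (nsmul_eq_mul _ _))
    refine mem_aroots'.2 ⟨(Polynomial.map_ne_zero_iff (algebraMap ℤ ℂ).injective_int).2
      fun h0 => hf (by simp [h0]), ?_⟩
    rw [hf', map_prod]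
    exact prod_eq_zero (mem_univ ⟨S, hS⟩) ((aeval_algHom_apply φ.toIntAlgHom _ _).trans
      (by rw [hq' ⟨S, hS⟩, map_zero]))
  have h9 : d ^ (p * f.natDegree) * n * k + p * m = 0 := by
    refine Int.abs_lt_one_iff.1 (Int.cast_lt (R := ℝ).1 ?_)
    rw [Int.cast_abs, ← norm_intCast, h7, norm_neg, norm_mul, norm_pow, norm_intCast, Int.cast_one]
    refine ((mul_le_mul_of_nonneg_left h8 (by positivity)).trans_eq ?_).trans_lt
      (hB (p - 1) (by omega))
    obtain ⟨p, rfl⟩ := Nat.exists_eq_succ_of_ne_zero pp.ne_zero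
    simp only [Nat.succ_sub_one, Nat.succ_eq_add_one]
    ring
  have h10 := Nat.prime_iff_prime_int.1 pp
  have h11 : (p : ℤ) ∣ d ^ (p * f.natDegree) * n * k := ⟨-m, by linear_combination h9⟩
  rcases h10.dvd_or_dvd h11 with h12 | h12
  · have := Nat.le_of_dvd (Int.natAbs_pos.2 hd0) (Int.natCast_dvd.1
      (h10.dvd_of_dvd_pow ((h10.dvd_or_dvd h12).resolve_right hn)))
    omega
  · have := Nat.le_of_dvd hk (Int.natCast_dvd_natCast.1 h12)
    omega

theorem transcendental_pi : Transcendental ℚ Real.pi := fun h => by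
  have h1 : IsAlgebraic ℚ (Real.pi * I) :=
    (h.algHom (ofRealAm.restrictScalars ℚ)).mul
      (IsAlgebraic.of_pow two_pos (by simpa using isAlgebraic_one.neg))
  have : IsAlgClosure ℚ (algebraicClosure ℚ ℂ) := algebraicClosure.isAlgClosure ℚ ℂ
  exact exp_ne (algebraicClosure ℚ ℂ).val.toRingHom ⟨_, mem_algebraicClosure_iff.2 h1⟩ exp_pi_mul_I

end Pool.Agent.ELL

end MrgPart1

-- marker of a merged file
example : 731051 + 24740 = 731051 + 24740 := rfl
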