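import Pool.Agent.MP_cbf1af_ag.ell.Stmt
import Pool.Agent.MP_cbf1af_ag.ell.Scale

/-! REALP: the real period as an integral. -/

namespace Pool.Agent.ELL

open Complex Filter Topology PeriodPair Set MeasureTheory

theorem realp : RealpStmt := fun L ω h0 hc hr => by
  obtain ⟨σ, h⟩ := exists_sigma L
  have hn : ∀ t ∈ Ioo 0 ω, (t : ℂ) ∉ L.lattice := fun t ht h1 => by
    obtain ⟨m, rfl⟩ := (hr t).1 h1
    have h2 : (0 : ℝ) < m := (mul_pos_iff_of_pos_right h0).1 ht.1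
    have h3 : (m : ℝ) < 1 := (mul_lt_iff_lt_one_left h0).1 ht.2
    have h4 : 0 < m := by exact_mod_cast h2
    have h5 : m < 1 := by exact_mod_cast h3
    omega
  have hs : Ioc 0 (ω / 2) ⊆ Ioo 0 ω := fun t ht => ⟨ht.1, by linarith [ht.2]⟩
  let p : ℝ → ℝ := fun t => (℘[L] t).re
  let q : ℝ → ℝ := fun t => (℘'[L] t).re
  have hp : ∀ t : ℝ, (p t : ℂ) = ℘[L] t := fun t =>
    conj_eq_iff_re.1 (by rw [← P_conj hc, conj_ofReal])
  have hd : ∀ t ∈ Ioo 0 ω, HasDerivAt p (q t) t := fun t ht => (dP (hn t ht)).real_of_complex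
  have hq : ∀ t ∈ Ioo 0 ω, (q t : ℂ) = ℘'[L] t := fun t ht =>
    (hd t ht).ofReal_comp.unique (by simpa only [hp] using (dP (hn t ht)).comp_ofReal)
  have g2 : (L.g₂.re : ℂ) = L.g₂ := conj_eq_iff_re.1 (by simp [g₂, G_conj hc, map_ofNat])
  have g3 : (L.g₃.re : ℂ) = L.g₃ := conj_eq_iff_re.1 (by simp [g₃, G_conj hc, map_ofNat])
  have he : ∀ t ∈ Ioo 0 ω, 4 * p t ^ 3 - L.g₂.re * p t - L.g₃.re = q t ^ 2 := fun t ht => by
    refine ofReal_injective ?_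
    push_cast
    rw [hp, hq t ht, g2, g3, L.derivWeierstrassP_sq _ (hn t ht)]
  have hz : ∀ t ∈ Ioo 0 ω, q t = 0 ↔ ((2 * t : ℝ) : ℂ) ∈ L.lattice := fun t ht => by
    rw [← h.zero, ofReal_mul, ofReal_ofNat, h.dup (hn t ht), ← hq t ht]
    simp [h.ne (hn t ht)]
  have hs' : Ioo 0 (ω / 2) ⊆ Ioo 0 ω := Ioo_subset_Ioc_self.trans hs
  have hne : ∀ t ∈ Ioo 0 (ω / 2), q t ≠ 0 := fun t ht h1 =>
    hn (2 * t) ⟨by linarith [ht.1], by linarith [ht.2]⟩ ((hz t (hs' ht)).1 h1)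
  have hcp : ContinuousOn p (Ioc 0 (ω / 2)) := fun t ht =>
    (hd t (hs ht)).continuousAt.continuousWithinAt
  have hcq : ContinuousOn q (Ioo 0 (ω / 2)) := fun t ht =>
    (dP' (hn t (hs' ht))).real_of_complex.continuousAt.continuousWithinAt
  have hi : Tendsto p (𝓝[>] 0) atTop := by
    have h1 : ContinuousAt (fun t : ℝ => (L.weierstrassPExcept 0 t).re) 0 :=
      (L.analyticAt_weierstrassPExcept 0).differentiableAt.hasDerivAt.real_of_complex.continuousAt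
    refine ((h1.tendsto.mono_left nhdsWithin_le_nhds).add_atTop
      ((tendsto_pow_atTop two_ne_zero).comp tendsto_inv_nhdsGT_zero)).congr fun t => ?_
    have h2 := congrArg re (L.weierstrassPExcept_add 0 t)
    simpa [← ofReal_pow, ← ofReal_inv] using h2
  have hm : ω / 2 ∈ Ioc 0 (ω / 2) := ⟨by linarith, le_rfl⟩
  have hlt : ∀ t ∈ Ioo 0 (ω / 2), q t < 0 := fun t ht => by
    refine isPreconnected_Ioo.gt_of_ne hcq hne ?_ ht
    obtain ⟨a, ha, hb⟩ := ((hi.eventually_gt_atTop (p (ω / 2))).and (Ioo_mem_nhdsGT hm.1)).exists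
    obtain ⟨c, h1, h2⟩ := exists_hasDerivAt_eq_slope p q hb.2 (hcp.mono fun t ht =>
      ⟨hb.1.trans_le ht.1, ht.2⟩) fun t ht => hd t (hs' ⟨hb.1.trans ht.1, ht.2⟩)
    exact ⟨c, ⟨hb.1.trans h1.1, h1.2⟩, h2 ▸ div_neg_of_neg_of_pos (by linarith)
      (by linarith [hb.2])⟩
  have ha : StrictAntiOn p (Ioc 0 (ω / 2)) := strictAntiOn_of_deriv_neg (convex_Ioc _ _) hcp
    fun t ht => by
      rw [interior_Ioc] at ht
      rw [(hd t (hs' ht)).deriv]
      exact hlt t ht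
  have him : p '' Ioo 0 (ω / 2) = Ioi (p (ω / 2)) := by
    refine Subset.antisymm ?_ fun y hy => ?_
    · rintro _ ⟨t, ht, rfl⟩
      exact ha ⟨ht.1, ht.2.le⟩ hm ht.2
    · obtain ⟨t, ht, rfl⟩ := isPreconnected_Ioc.intermediate_value_Ici hm
        (le_principal_iff.2 (Ioc_mem_nhdsGT hm.1)) hcp hi (Ioi_subset_Ici_self hy)
      exact ⟨t, ⟨ht.1, ht.2.lt_of_ne fun h1 => by simp [h1] at hy⟩, rfl⟩
  have hone : EqOn (fun t => |q t| • (1 / √(4 * p t ^ 3 - L.g₂.re * p t - L.g₃.re)))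
      (fun _ => (1 : ℝ)) (Ioo 0 (ω / 2)) := fun t ht => by
    simp [he t (hs' ht), Real.sqrt_sq_eq_abs, hne t ht]
  have hw : ∀ t ∈ Ioo 0 (ω / 2), HasDerivWithinAt p (q t) (Ioo 0 (ω / 2)) t := fun t ht =>
    (hd t (hs' ht)).hasDerivWithinAt
  have hj := (ha.mono Ioo_subset_Ioc_self).injOn
  refine ⟨_, _, p (ω / 2), g2.symm, g3.symm, ?_, fun x hx => ?_, ?_, ?_⟩
  · rw [he _ (hs hm), (hz _ (hs hm)).2 ((hr _).2 ⟨1, by push_cast; ring⟩)]
    simp
  · obtain ⟨t, ht, rfl⟩ := him.ge hx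
    rw [he t (hs' ht)]
    exact sq_pos_of_ne_zero (hne t ht)
  · rw [← him, integrableOn_image_iff_integrableOn_abs_deriv_smul measurableSet_Ioo hw hj]
    exact (integrableOn_const (by simp)).congr_fun hone.symm measurableSet_Ioo
  · rw [← him, integral_image_eq_integral_abs_deriv_smul measurableSet_Ioo hw hj,
      setIntegral_congr_fun measurableSet_Ioo hone]
    simp [hm.1.le]

end Pool.Agent.ELL
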