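import Mathlib
import Pool.Agent.MP_cbf1af_ag.ell.Scale
import Pool.Agent.MP_cbf1af_ag.ell.Law

/-! The theta functions `σ³ ℘'`, `σ³ ℘`, `σ³`. -/

namespace Pool.Agent.ELL

open Complex Filter Topology PeriodPair

variable {L : PeriodPair} {σ : ℂ → ℂ} {z w l : ℂ}

/-- `σ³ ℘'`, `σ³ ℘`, `σ³` -/
noncomputable def th (σ : ℂ → ℂ) : Fin 3 → ℂ → ℂ :=
  ![fun z => 3 * σ z * deriv σ z * deriv (deriv σ) z - σ z ^ 2 * deriv (deriv (deriv σ)) z -
    2 * deriv σ z ^ 3, fun z => σ z * sb σ z, fun z => σ z ^ 3]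

namespace IsSig

variable (h : IsSig L σ)
include h

theorem th_hol (i : Fin 3) : Differentiable ℂ (th σ i) := by
  have := h.hol; have := h.hol1; have := h.hol2; have := h.hol3; have := h.holb
  fin_cases i <;> simp only [th] <;> simp <;> fun_prop

theorem th_eq (hz : z ∉ L.lattice) (i : Fin 3) :
    th σ i z = σ z ^ 3 * ![℘'[L] z, ℘[L] z, 1] i := by
  fin_cases i <;> simp [th, h.sb_eq hz]
  · refine mul_left_cancel₀ (h.ne hz) ?_
    have := h.sc_eq hz
    rw [sc] at this
    linear_combination this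
  · ring

theorem th_quasi (hl : l ∈ L.lattice) :
    ∃ c, ∀ i z, th σ i (z + l) = exp (3 * eta L σ l * z + c) * th σ i z := by
  obtain ⟨c, hc⟩ := h.quasi hl
  refine ⟨3 * c, fun i => ?_⟩
  have := (h.th_hol i).continuous
  refine ext_off (by fun_prop) (by fun_prop) (cnt L) fun z hz => ?_
  rw [h.th_eq hz, h.th_eq (add_not hl hz), P_add hl, P'_add hl, hc, mul_pow, ← exp_nat_mul,
    mul_assoc]
  congr 2
  push_cast
  ring

theorem th_zero : th σ 0 0 = -2 := by simp [th, h.at0, h.one]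

theorem th_ne (z : ℂ) : ∃ i, th σ i z ≠ 0 := by
  by_cases hz : z ∈ L.lattice
  · obtain ⟨c, hc⟩ := h.th_quasi hz
    exact ⟨0, by rw [← zero_add z, hc, h.th_zero]; simp⟩
  · exact ⟨2, pow_ne_zero 3 (h.ne hz)⟩

theorem th_law (h2 : IsAlgebraic ℚ L.g₂) (h3 : IsAlgebraic ℚ L.g₃) (i j : Fin 3) :
    ∃ a : Fin 3 → Fin 3 → Fin 3 → Fin 3 → ℂ, (∀ p q r s, IsAlgebraic ℚ (a p q r s)) ∧
      ∀ z w, th σ i (z + w) * th σ j (z - w) =
        ∑ p, ∑ q, ∑ r, ∑ s, a p q r s * (th σ p z * th σ q z * (th σ r w * th σ s w)) := by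
  obtain ⟨a, h4, h5⟩ := ev_ex h2 h3 (tab i j)
  have hc := fun i => (h.th_hol i).continuous
  refine ⟨a, h4, fun z => ext_off (by fun_prop) (by fun_prop) (cnt L) fun w hw => ?_⟩
  revert z
  refine ext_off (by fun_prop) (by fun_prop)
    ((((cnt L).union ((cnt L).preimage (mul_right_injective₀ (two_ne_zero' ℂ)))).union
      ((cnt L).preimage (add_left_injective w))).union ((cnt L).preimage (sub_left_injective
        (b := w)))) fun z hz => ?_
  simp only [Set.mem_union, not_or, Set.mem_preimage, SetLike.mem_coe] at hz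
  obtain ⟨⟨⟨hz, h0⟩, h1⟩, h6⟩ := hz
  have hw' : -w ∉ L.lattice := fun h => hw (neg_mem_iff.1 h)
  have m1 := h.P_sum hz h0 hw' (by rwa [← sub_eq_add_neg]) (by rwa [sub_neg_eq_add])
  have m0 := h.P'_sum hz h0 hw' (by rwa [← sub_eq_add_neg]) (by rwa [sub_neg_eq_add])
  rw [L.weierstrassP_neg, L.derivWeierstrassP_neg, ← sub_eq_add_neg] at m0 m1
  rw [← h5 (fun p => th σ p z) fun p => th σ p w, funext (h.th_eq hz), funext (h.th_eq hw), ev_smul,
    ← law_alg (h.P_ne hz hw h1 h6) (L.derivWeierstrassP_sq z hz) (L.derivWeierstrassP_sq w hw)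
      (h.P_sum hz h0 hw h1 h6) (h.P'_sum hz h0 hw h1 h6) m1 m0, h.th_eq h1, h.th_eq h6,
    mul_mul_mul_comm, ← mul_pow, h.add hz hw]
  ring

theorem th_par (i : Fin 3) (z : ℂ) : th σ i (-z) = ![1, -1, -1] i * th σ i z := by
  have := (h.th_hol i).continuous
  revert z
  refine ext_off (by fun_prop) (by fun_prop) (cnt L) fun z hz => ?_
  rw [h.th_eq hz, h.th_eq fun h => hz (neg_mem_iff.1 h), h.odd]
  fin_cases i <;> simp <;> ring

theorem th_d1 (i : Fin 3) : deriv (th σ i) 0 = ![0, 1, 0] i := by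
  have h0 := (h.hol 0).hasDerivAt
  fin_cases i
  · have := par (h.th_par 0) 0
    simp only [neg_zero, Matrix.cons_val_zero] at this
    change deriv (th σ 0) 0 = 0
    linear_combination this / 2
  · exact (h0.fun_mul (h.holb 0).hasDerivAt).deriv.trans (by simp [h.at0, h.one, h.sb0])
  · exact (h0.fun_pow 3).deriv.trans (by simp [h.at0])

theorem th_d2 (i : Fin 3) : deriv (deriv (th σ i)) 0 = 0 := by
  have h1 : ∀ i, ![1, -1, -1] i = (-1 : ℂ) → deriv (deriv (th σ i)) 0 = 0 := fun i hi => by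
    have := par (par (h.th_par i)) 0
    rw [neg_zero, hi] at this
    linear_combination this / 2
  fin_cases i
  · have d0 := fun z => (h.hol z).hasDerivAt
    have d1 := fun z => (h.hol1 z).hasDerivAt
    have d2 := fun z => (h.hol2 z).hasDerivAt
    have d3 := fun z => (h.hol3 z).hasDerivAt
    have db := fun z => (h.holb z).hasDerivAt
    have dt := fun z => (h.th_hol 0 z).hasDerivAt
    have := h.hol.continuous
    have := h.holb.continuous
    have := (h.th_hol 0).continuous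
    have e0 : (fun z => th σ 0 z ^ 2) = fun z =>
        4 * sb σ z ^ 3 - L.g₂ * (sb σ z * σ z ^ 4) - L.g₃ * σ z ^ 6 :=
      funext (ext_off (by fun_prop) (by fun_prop) (cnt L) fun z hz => by
        rw [h.th_eq hz, h.sb_eq hz, mul_pow, Matrix.cons_val_zero, L.derivWeierstrassP_sq z hz]
        ring)
    have e1 := funext fun z => (e0 ▸ (dt z).fun_pow 2).unique (((((db z).fun_pow 3).const_mul
      4).fun_sub (((db z).fun_mul ((d0 z).fun_pow 4)).const_mul L.g₂)).fun_sub
        (((d0 z).fun_pow 6).const_mul L.g₃))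
    have e2 := funext fun z => (db z).unique (((d1 z).fun_pow 2).fun_sub ((d0 z).fun_mul (d2 z)))
    have e3 := (h.holb.deriv 0).hasDerivAt
    have e4 := e3.unique (e2 ▸ ((((d1 0).fun_pow 1).const_mul _).fun_mul (d2 0)).fun_sub
      (((d1 0).fun_mul (d2 0)).fun_add ((d0 0).fun_mul (d3 0))))
    have e5 := (e1 ▸ (((dt 0).fun_pow 1).const_mul _).fun_mul
      ((h.th_hol 0).deriv 0).hasDerivAt).unique (((((((db 0).fun_pow 2).const_mul _).fun_mul
        e3).const_mul 4).fun_sub (((e3.fun_mul ((d0 0).fun_pow 4)).fun_add ((db 0).fun_mul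
          ((((d0 0).fun_pow 3).const_mul _).fun_mul (d1 0)))).const_mul L.g₂)).fun_sub
          (((((d0 0).fun_pow 5).const_mul _).fun_mul (d1 0)).const_mul L.g₃))
    have e6 := congrFun e2 0
    simp [h.at0, h.one, h.two] at e4 e6
    simp [h.at0, h.th_d1, h.th_zero, e4, e6] at e5
    change deriv (deriv (th σ 0)) 0 = 0
    linear_combination -e5 / 4
  · exact h1 1 rfl
  · exact h1 2 rfl

end IsSig

end Pool.Agent.ELL
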